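import Pool.Agent.PB.G.Piv

/-!
# PB-G-Order (section 2.3): linear order, finiteness and number of separating edges

PLANS. Write `K = ClS (del1 O s(u,v)) D`, `K' = ClS (del1 O s(u',v')) D`, e = s(u,v), e' = s(u',v').
`Piv.order`: e' ∈ del1 O e, so K closed under e': either u', v' ∈ K or u', v' ∉ K.
 Case both in K: K' ⊆ K: otherwise some w ∈ K' \ K; the connection D → w in del1 O e' leaves K (`Rch.exists_cross`,
 starting point in D ⊆ K) by an edge of O that is not in del1 O e, i.e. by e, from u to v (v ∉ K), so v ∈ K'; but v → t ∈ T in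
 off O K, whose edges are ≠ e' (u' ∈ K), so t ∈ K' ∩ T, contradiction. And v' ∈ K. (second alternative)
 Case both not in K: K ⊆ K' (connections from D in del1 O e stay in K, `Rch.mem_of_closed`/`rch_cut`, so do not use e'), and v ∈ K'
 (u ∈ K ⊆ K', edge e ≠ e'). (first alternative)
`finite_piv`: if there is one pivotal edge then (Piv.nonempty) D → t ∈ T uses a finite set S ⊆ O
(`Rch.exists_finite`); every pivotal edge s(u,v) is in S (otherwise S ⊆ del1 O s(u,v), so t ∈ K); the pairs (u,v) with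
s(u,v) in a finite set form a finite set (e.g. injection to Sym2 × Bool is awkward: use that u and v are members
of edges of S: the set of endpoints E is finite and the pairs are in E ×ˢ E).
`exists_min_piv`, `exists_max_piv`: the pivotal pairs form a finite nonempty set; take one with
minimal / maximal K (Set.Finite.exists_minimal / exists_maximal for the image of K, or well-founded argument on the
finite set ordered by ⊆ of K); by `Piv.order` every other pivotal edge is comparable, and the alternative that contradicts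
minimality (maximality) gives K' ⊆ K with v' ∈ K \ K'... : precisely, if (u',v') ≠ (u,v) (so e ≠ e' by dir_unique) and the wrong
alternative `K' ⊆ K ∧ v' ∈ K` held for a minimal K, then K' = K by minimality, but v' ∈ K = K', contradiction.
`encard_piv_le`: RchL O n y x: induction is awkward; take a path: from `rch_iff_reachable` style: choose the minimal n0 ≤ n with
RchL O n0 y x; show by induction on n (statement: ∃ S : Finset (Sym2 W), S.card ≤ n ∧ ↑S ⊆ O ∧ Rch ↑S y x) that a connection of length ≤ n uses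
at most n edges; each pivotal edge is in S; (u,v) ↦ s(u,v) is injective on pivotal pairs (dir_unique), so the number of pivotal pairs is ≤ card S.
-/

set_option autoImplicit false

namespace Pool.Agent.PB

variable {W : Type*}

theorem Piv.mem_of_rch {O : Set (Sym2 W)} {D T : Set W} {u v a t : W} {S : Set (Sym2 W)}
    (h : Piv O D T u v) (ha : a ∈ D) (ht : t ∈ T) (hS : S ⊆ O) (hr : Rch S a t) :
    s(u, v) ∈ S := by
  by_contra hn
  have hsub : S ⊆ del1 O s(u, v) := by
    intro f hf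
    refine ⟨hS hf, ?_⟩
    rintro rfl
    exact hn hf
  exact Set.disjoint_left.1 h.2.2.2.1 ⟨a, ha, hr.mono hsub⟩ ht

theorem Piv.order {O : Set (Sym2 W)} {D T : Set W} {u v u' v' : W} (h : Piv O D T u v)
    (h' : Piv O D T u' v') (hne : s(u, v) ≠ s(u', v')) :
    (ClS (del1 O s(u, v)) D ⊆ ClS (del1 O s(u', v')) D ∧ v ∈ ClS (del1 O s(u', v')) D) ∨
    (ClS (del1 O s(u', v')) D ⊆ ClS (del1 O s(u, v)) D ∧ v' ∈ ClS (del1 O s(u, v)) D) := by
  obtain ⟨heO, huK, hvK, hdis, t, htT, hvt⟩ := h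
  obtain ⟨heO', huK', hvK', hdis', t', htT', hvt'⟩ := h'
  have he'mem : s(u', v') ∈ del1 O s(u, v) := ⟨heO', fun hh => hne hh.symm⟩
  have hemem : s(u, v) ∈ del1 O s(u', v') := ⟨heO, fun hh => hne hh⟩
  by_cases hu'K : u' ∈ ClS (del1 O s(u, v)) D
  · right
    have hv'K : v' ∈ ClS (del1 O s(u, v)) D := ClS_tail hu'K he'mem
    refine ⟨?_, hv'K⟩
    intro w hw
    by_contra hwK
    obtain ⟨a, haD, hr⟩ := hw
    obtain ⟨p, q, hp, hq, hpq, hrp⟩ :=
      Rch.exists_cross (ClS (del1 O s(u, v)) D) (subset_ClS _ _ haD) hwK hr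
    have heq : s(p, q) = s(u, v) := by
      by_contra hn
      exact hq (ClS_tail hp ⟨hpq.1, hn⟩)
    rcases Sym2.eq_iff.1 heq with ⟨rfl, rfl⟩ | ⟨rfl, rfl⟩
    · have hvK'' : q ∈ ClS (del1 O s(u', v')) D := ⟨a, haD, hrp.tail hemem⟩
      have hsub : off O (ClS (del1 O s(p, q)) D) ⊆ del1 O s(u', v') := by
        intro f hf
        refine ⟨(mem_off.1 hf).1, ?_⟩
        rintro rfl
        exact (mem_off.1 hf).2 u' (Sym2.mem_mk_left u' v') hu'K
      exact Set.disjoint_left.1 hdis' (ClS_trans hvK'' (hvt.mono hsub)) htT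
    · exact hvK hp
  · left
    have hKK' : ClS (del1 O s(u, v)) D ⊆ ClS (del1 O s(u', v')) D := by
      rintro w ⟨a, haD, hr⟩
      refine ⟨a, haD, (rch_cut haD hr).mono ?_⟩
      rintro f ⟨hf, hfK⟩
      refine ⟨hf.1, ?_⟩
      rintro rfl
      exact hu'K (hfK u' (Sym2.mem_mk_left u' v'))
    exact ⟨hKK', ClS_tail (hKK' huK) hemem⟩

theorem injOn_piv (O : Set (Sym2 W)) (D T : Set W) :
    Set.InjOn (fun q : W × W => s(q.1, q.2)) {q : W × W | Piv O D T q.1 q.2} := by
  rintro ⟨u, v⟩ h ⟨u', v'⟩ h' he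
  obtain ⟨h1, h2⟩ := Piv.dir_unique h h' he
  exact Prod.ext h1 h2

theorem finite_piv (O : Set (Sym2 W)) (D T : Set W) :
    {q : W × W | Piv O D T q.1 q.2}.Finite := by
  rcases Set.eq_empty_or_nonempty {q : W × W | Piv O D T q.1 q.2} with he | ⟨q0, h0⟩
  · rw [he]; exact Set.finite_empty
  · obtain ⟨t, ⟨a, haD, hr⟩, htT⟩ := Piv.nonempty h0
    obtain ⟨S, hSO, hSf, hSr⟩ := hr.exists_finite
    exact Set.Finite.of_injOn (f := fun q : W × W => s(q.1, q.2)) (t := S)
      (fun q hq => Piv.mem_of_rch hq haD htT hSO hSr) (injOn_piv O D T) hSf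

theorem exists_min_piv {O : Set (Sym2 W)} {D T : Set W} {u0 v0 : W} (h0 : Piv O D T u0 v0) :
    ∃ u v, Piv O D T u v ∧ ∀ u' v', Piv O D T u' v' → (u' = u ∧ v' = v) ∨
      (ClS (del1 O s(u, v)) D ⊆ ClS (del1 O s(u', v')) D ∧ v ∈ ClS (del1 O s(u', v')) D) := by
  obtain ⟨⟨u, v⟩, hq, hmin⟩ := Set.Finite.exists_minimalFor
    (fun q : W × W => ClS (del1 O s(q.1, q.2)) D) {q : W × W | Piv O D T q.1 q.2}
    (finite_piv O D T) ⟨(u0, v0), h0⟩
  refine ⟨u, v, hq, ?_⟩
  intro u' v' h'
  by_cases hne : s(u, v) = s(u', v')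
  · obtain ⟨h1, h2⟩ := Piv.dir_unique hq h' hne
    exact Or.inl ⟨h1.symm, h2.symm⟩
  · rcases Piv.order hq h' hne with h1 | ⟨h1, h2⟩
    · exact Or.inr h1
    · exfalso
      have hle := hmin (j := (u', v')) h' h1
      exact h'.2.2.1 (hle h2)

theorem exists_max_piv {O : Set (Sym2 W)} {D T : Set W} {u0 v0 : W} (h0 : Piv O D T u0 v0) :
    ∃ u v, Piv O D T u v ∧ ∀ u' v', Piv O D T u' v' → (u' = u ∧ v' = v) ∨
      (ClS (del1 O s(u', v')) D ⊆ ClS (del1 O s(u, v)) D ∧ v' ∈ ClS (del1 O s(u, v)) D) := by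
  obtain ⟨⟨u, v⟩, hq, hmax⟩ := Set.Finite.exists_maximalFor
    (fun q : W × W => ClS (del1 O s(q.1, q.2)) D) {q : W × W | Piv O D T q.1 q.2}
    (finite_piv O D T) ⟨(u0, v0), h0⟩
  refine ⟨u, v, hq, ?_⟩
  intro u' v' h'
  by_cases hne : s(u, v) = s(u', v')
  · obtain ⟨h1, h2⟩ := Piv.dir_unique hq h' hne
    exact Or.inl ⟨h1.symm, h2.symm⟩
  · rcases Piv.order hq h' hne with ⟨h1, h2⟩ | h1
    · exfalso
      have hle := hmax (j := (u', v')) h' h1
      exact hq.2.2.1 (hle h2)
    · exact Or.inr h1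

/-- a connection of length at most `n` uses at most `n` edges -/
theorem RchL.exists_finset {O : Set (Sym2 W)} {n : ℕ} {x y : W} (h : RchL O n x y) :
    ∃ S : Finset (Sym2 W), S.card ≤ n ∧ (S : Set (Sym2 W)) ⊆ O ∧ Rch (S : Set (Sym2 W)) x y := by
  classical
  induction n generalizing y with
  | zero =>
    cases h
    exact ⟨∅, by simp, by simp, Rch.refl _ _⟩
  | succ n ih =>
    rcases h with h | ⟨z, hz, hzy⟩
    · obtain ⟨S, h1, h2, h3⟩ := ih h
      exact ⟨S, h1.trans (Nat.le_succ n), h2, h3⟩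
    · obtain ⟨S, h1, h2, h3⟩ := ih hz
      refine ⟨insert s(z, y) S, (Finset.card_insert_le _ _).trans (Nat.succ_le_succ h1), ?_, ?_⟩
      · rw [Finset.coe_insert]
        exact Set.insert_subset hzy h2
      · rw [Finset.coe_insert]
        exact (h3.mono (Set.subset_insert _ _)).tail (Set.mem_insert _ _)

theorem encard_piv_le {O : Set (Sym2 W)} {n : ℕ} {x y : W} (h : RchL O n y x) :
    {q : W × W | Piv O {y} {x} q.1 q.2}.encard ≤ n := by
  obtain ⟨S, h1, h2, h3⟩ := h.exists_finset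
  have hle : {q : W × W | Piv O {y} {x} q.1 q.2}.encard ≤ (S : Set (Sym2 W)).encard :=
    Set.encard_le_encard_of_injOn (f := fun q : W × W => s(q.1, q.2))
      (fun q hq => Piv.mem_of_rch hq (Set.mem_singleton y) (Set.mem_singleton x) h2 h3)
      (injOn_piv O {y} {x})
  refine hle.trans ?_
  rw [Set.encard_coe_eq_coe_finsetCard]
  exact_mod_cast h1

end Pool.Agent.PB
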