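import Pool.Agent.PB.G.TwoTg
import Pool.Agent.PB.G.Order

/-!
# PB-G-Last (section 5.1): the last edge separating `y` from `T1 ∪ T2`

`two_ghost_dec`: `y → T1` and `y → T2` iff either `TwoT O y T1 T2` or there is a directed edge `(u,v)`
with `LastSep O y T1 T2 u v`; the alternatives are exclusive and `(u,v)` is unique.

PLAN. Abbreviate `T = T1 ∪ T2`, D = {y} (`ClS_singleton`, `sep_iff`, `rchT_iff`).
⇒: if no edge separates y from T: `two_targets`. Otherwise `piv_of_sep` gives a pivotal pair, take the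
last one `(u,v)` (`exists_max_piv`), K = Cl (del1 O e) y. y → T1 in O and K ∩ T1 = ∅, so by `ClS_eq_union` T1 is reached from v
off K: `RchT (off O K) v T1`, same for T2. No edge f separates v from T in `off O K`: otherwise (`Piv.sep_lift`)
f separates {y} from T in O with `K ⊆ Kf`, `v ∈ Kf`, f ≠ e; `piv_of_sep` gives the pivotal pair (u',v') of f; by maximality either
(u',v') = (u,v), impossible as f ≠ s(u,v), or v' ∈ K ⊆ Kf, contradicting v' ∉ Kf. So `two_targets` in `off O K`.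
⇐: TwoT gives both connections; LastSep: y → u in O, edge e, v → Ti in off O K ⊆ O.
`LastSep.not_twoT`: e separates y from T (`sep_iff`: K ∩ T = ∅), `not_sep_of_twoT`.
`LastSep.unique`: both pairs are pivotal for ({y}, T). If s(u,v) = s(u',v'): `Piv.dir_unique`. Otherwise by `Piv.order` (say)
K ⊆ K' and v ∈ K', where (u',v') is the other pair (the other case is symmetric). Then e' separates v from T in `off O K`
(e' ∈ off O K: v → T off K in del1 would put T in K' ... precisely: if v → t ∈ T in `del1 (off O K) e'` then t ∈ K', since v ∈ K' and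
`del1 (off O K) e' ⊆ del1 O e'`; but K' ∩ T = ∅; and e' ∈ off O K: otherwise `del1 (off O K) e' = off O K` and the same argument applies to the
connection v → T in off O K). This contradicts `not_sep_of_twoT` for `TwoT (off O K) v T1 T2`.
-/

set_option autoImplicit false

namespace Pool.Agent.PB

variable {W : Type*}

private theorem twoT_left {O : Set (Sym2 W)} {y : W} {T1 T2 : Set W} (h : TwoT O y T1 T2) :
    RchT O y T1 := by
  obtain ⟨S1, S2, h1, h2, h3, ⟨t, ht, h4⟩, h5⟩ := twoT_iff.1 h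
  exact ⟨t, ht, h4.mono h1⟩

private theorem twoT_right {O : Set (Sym2 W)} {y : W} {T1 T2 : Set W} (h : TwoT O y T1 T2) :
    RchT O y T2 := by
  obtain ⟨S1, S2, h1, h2, h3, h4, ⟨t, ht, h5⟩⟩ := twoT_iff.1 h
  exact ⟨t, ht, h5.mono h2⟩

theorem LastSep.piv {O : Set (Sym2 W)} {y : W} {T1 T2 : Set W} {u v : W}
    (h : LastSep O y T1 T2 u v) : Piv O {y} (T1 ∪ T2) u v := by
  obtain ⟨h1, h2, h3, h4, h5⟩ := h
  obtain ⟨t, ht, hr⟩ := twoT_left h5
  refine ⟨h1, ?_, ?_, ?_, ?_⟩
  · rw [ClS_singleton]; exact h2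
  · rw [ClS_singleton]; exact h3
  · rw [ClS_singleton]; exact h4
  · rw [ClS_singleton]; exact ⟨t, Or.inl ht, hr⟩

theorem two_ghost_dec {O : Set (Sym2 W)} {y : W} {T1 T2 : Set W} :
    (RchT O y T1 ∧ RchT O y T2) ↔ TwoT O y T1 T2 ∨ ∃ u v, LastSep O y T1 T2 u v := by
  constructor
  · rintro ⟨h1, h2⟩
    by_cases hs : ∀ e, ¬ Sep O e y (T1 ∪ T2)
    · exact Or.inl (two_targets h1 h2 hs)
    · right
      push Not at hs
      obtain ⟨e, he⟩ := hs
      have hne : (ClS O {y} ∩ (T1 ∪ T2)).Nonempty := by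
        obtain ⟨t, ht, hr⟩ := h1
        exact ⟨t, ⟨y, rfl, hr⟩, Or.inl ht⟩
      obtain ⟨u0, v0, -, h0⟩ := piv_of_sep hne (sep_iff.1 he).1 (sep_iff.1 he).2
      obtain ⟨u, v, hp, hmax⟩ := exists_max_piv h0
      have hkey : ∀ t ∈ T1 ∪ T2, Rch O y t →
          Rch (off O (ClS (del1 O s(u, v)) {y})) v t := by
        intro t ht hr
        have h3 : t ∈ ClS O {y} := ⟨y, rfl, hr⟩
        rw [ClS_eq_union hp.1 hp.2.1 hp.2.2.1] at h3
        rcases h3 with h3 | h3
        · exact absurd ht (Set.disjoint_left.1 hp.2.2.2.1 h3)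
        · exact h3
      have hT1 : RchT (off O (ClS (del1 O s(u, v)) {y})) v T1 := by
        obtain ⟨t, ht, hr⟩ := h1
        exact ⟨t, ht, hkey t (Or.inl ht) hr⟩
      have hT2 : RchT (off O (ClS (del1 O s(u, v)) {y})) v T2 := by
        obtain ⟨t, ht, hr⟩ := h2
        exact ⟨t, ht, hkey t (Or.inr ht) hr⟩
      have hno : ∀ f, ¬ Sep (off O (ClS (del1 O s(u, v)) {y})) f v (T1 ∪ T2) := by
        intro f hf
        obtain ⟨g1, g2, g3, g4, g5⟩ := hp.sep_lift hf
        obtain ⟨u', v', rfl, hp'⟩ := piv_of_sep hne g1 g3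
        rcases hmax u' v' hp' with ⟨rfl, rfl⟩ | ⟨g6, g7⟩
        · exact g2 rfl
        · exact hp'.2.2.1 (g4 g7)
      have hTT := two_targets hT1 hT2 hno
      obtain ⟨p1, p2, p3, p4, -⟩ := hp
      rw [ClS_singleton] at p2 p3 p4 hTT
      exact ⟨u, v, p1, p2, p3, p4, hTT⟩
  · rintro (h | ⟨u, v, h⟩)
    · exact ⟨twoT_left h, twoT_right h⟩
    · obtain ⟨h1, h2, h3, h4, h5⟩ := h
      have hyv : Rch O y v := (h2.mono (del1_subset _ _)).tail h1
      obtain ⟨t, ht, hr⟩ := twoT_left h5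
      obtain ⟨t', ht', hr'⟩ := twoT_right h5
      exact ⟨⟨t, ht, hyv.trans (hr.mono (off_subset _ _))⟩,
        ⟨t', ht', hyv.trans (hr'.mono (off_subset _ _))⟩⟩

theorem LastSep.not_twoT {O : Set (Sym2 W)} {y : W} {T1 T2 : Set W} {u v : W}
    (h : LastSep O y T1 T2 u v) : ¬ TwoT O y T1 T2 := fun hT =>
  not_sep_of_twoT hT s(u, v) (sep_iff.2 ⟨h.1, h.piv.2.2.2.1⟩)

private theorem last_no {O : Set (Sym2 W)} {y : W} {T1 T2 : Set W} {u v u' v' : W}
    (h : LastSep O y T1 T2 u v) (h' : Piv O {y} (T1 ∪ T2) u' v')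
    (hv : v ∈ ClS (del1 O s(u', v')) {y}) : False := by
  have h5 := h.2.2.2.2
  have hno : ¬ RchT (del1 (off O (Cl (del1 O s(u, v)) y)) s(u', v')) v (T1 ∪ T2) := by
    rintro ⟨t, ht, hr⟩
    have hr' : Rch (del1 O s(u', v')) v t := hr.mono (del1_mono (off_subset _ _) _)
    exact Set.disjoint_left.1 h'.2.2.2.1 (ClS_trans hv hr') ht
  refine not_sep_of_twoT h5 s(u', v') ⟨?_, hno⟩
  by_contra hn
  rw [del1_of_notMem hn] at hno
  obtain ⟨t, ht, hr⟩ := twoT_left h5
  exact hno ⟨t, Or.inl ht, hr⟩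

theorem LastSep.unique {O : Set (Sym2 W)} {y : W} {T1 T2 : Set W} {u v u' v' : W}
    (h : LastSep O y T1 T2 u v) (h' : LastSep O y T1 T2 u' v') : u = u' ∧ v = v' := by
  by_cases hne : s(u, v) = s(u', v')
  · exact h.piv.dir_unique h'.piv hne
  · exfalso
    rcases h.piv.order h'.piv hne with ⟨_, h1⟩ | ⟨_, h1⟩
    · exact last_no h h'.piv h1
    · exact last_no h' h.piv h1

end Pool.Agent.PB
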