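import Pool.Agent.PB.G.Base

/-!
# PB-G-Piv (section 2.3): separating edges are directed; decomposition of the cluster

Write `e = s(u,v)`, `K = ClS (del1 O e) D` (vertices reachable from `D` in `O\e`).

PLANS.
`piv_of_sep`: `e = s(a,b)` (`Sym2.ind`). t0 ∈ ClS O D ∩ T; from the point of D reaching t0, `Rch.del1_or`: t0 not in K
(disjoint from T), so a ∈ K or b ∈ K; WLOG (swap) u ∈ K. v ∉ K: otherwise K is closed under all edges of
O (the edges of del1 O e by `ClS_tail`, the edge e since both ends are in K) so t0 ∈ K (`Rch.mem_of_closed`).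
v → t0 off K: apply `rch_last_visit` with U = K to the connection a0 → t0 in O, or directly `Rch.induct` with the property
`y ∈ K ∨ (y ∉ K ∧ Rch (off O K) v y)` (a step from K to outside must be the edge e, hence goes to v).
`Piv.nonempty`: D → u in O (ClS_mono), edge e, then v → t in `off O K ⊆ O`.
`Piv.dir_unique`: if s(u,v) = s(u',v') and (u',v') = (v,u), then u' = v ∈ K (same K as the edges are equal)
contradicts v ∉ K.
`ClS_eq_union`: ⊆ as in `piv_of_sep` (Rch.induct with the property `y ∈ K ∨ Rch (off O K) v y`); ⊇ clear.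
`ClS_disjoint_union`: Rch (off O K) v x implies x ∉ K, by `rch_off_ClS_iff` and `rch_off_of_closed`
(or directly by Rch.induct: the last edge of a nontrivial connection has no end point in K).
`Piv.sep_lift`: f ∈ off O K, so f ∈ O and f ≠ e (u ∈ K is an end point of e). Kf := ClS (del1 O f) D. K ⊆ Kf: a connection
from a ∈ D in del1 O e stays in K (`rch_cut`), its edges have both end points in K, so are ≠ f (f has no end point in K). v ∈ Kf: u ∈ K ⊆
Kf and e ∈ del1 O f. Kf ∩ T = ∅: if a → t ∈ T in del1 O f with a ∈ D: `Rch.induct` with the property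
`z ∈ K ∨ Rch (del1 (off O K) f) v z` (a step from K to outside is an edge of O not in del1 O e, so it is e, and goes from u to v); t ∉ K, so v → t in
del1 (off O K) f, contradicting hf.
-/

set_option autoImplicit false

namespace Pool.Agent.PB

variable {W : Type*}

private theorem step_dich {O Q R : Set (Sym2 W)} {D : Set W} {u v b c : W}
    (hv : v ∉ ClS (del1 O s(u, v)) D) (hQ : Q ⊆ O)
    (hR : ∀ b c, s(b, c) ∈ Q → b ∉ ClS (del1 O s(u, v)) D → c ∉ ClS (del1 O s(u, v)) D →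
      s(b, c) ∈ R)
    (hbc : s(b, c) ∈ Q)
    (hb : b ∈ ClS (del1 O s(u, v)) D ∨ (b ∉ ClS (del1 O s(u, v)) D ∧ Rch R v b)) :
    c ∈ ClS (del1 O s(u, v)) D ∨ (c ∉ ClS (del1 O s(u, v)) D ∧ Rch R v c) := by
  by_cases hc : c ∈ ClS (del1 O s(u, v)) D
  · exact Or.inl hc
  right
  refine ⟨hc, ?_⟩
  rcases hb with hb | ⟨hb, hr⟩
  · have heq : s(b, c) = s(u, v) := by
      by_contra hn
      exact hc (ClS_tail hb ⟨hQ hbc, hn⟩)
    rcases Sym2.eq_iff.1 heq with ⟨rfl, rfl⟩ | ⟨rfl, rfl⟩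
    · exact Rch.refl _ _
    · exact absurd hb hv
  · exact hr.tail (hR b c hbc hb hc)

private theorem dich {O : Set (Sym2 W)} {D : Set W} {u v a y : W}
    (hv : v ∉ ClS (del1 O s(u, v)) D) (ha : a ∈ ClS (del1 O s(u, v)) D) (h : Rch O a y) :
    y ∈ ClS (del1 O s(u, v)) D ∨
      (y ∉ ClS (del1 O s(u, v)) D ∧ Rch (off O (ClS (del1 O s(u, v)) D)) v y) := by
  refine Rch.induct (P := fun y => y ∈ ClS (del1 O s(u, v)) D ∨
      (y ∉ ClS (del1 O s(u, v)) D ∧ Rch (off O (ClS (del1 O s(u, v)) D)) v y)) (Or.inl ha) ?_ h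
  intro b c _ hbc hb
  exact step_dich hv subset_rfl (fun b c h1 h2 h3 => mk_mem_off.2 ⟨h1, h2, h3⟩) hbc hb

private theorem piv_aux {O : Set (Sym2 W)} {D T : Set W} {u v : W} (h : (ClS O D ∩ T).Nonempty)
    (he : s(u, v) ∈ O) (hs : Disjoint (ClS (del1 O s(u, v)) D) T)
    (hu : u ∈ ClS (del1 O s(u, v)) D) : Piv O D T u v := by
  obtain ⟨t, ⟨a, haD, hr⟩, htT⟩ := h
  have haK : a ∈ ClS (del1 O s(u, v)) D := subset_ClS _ _ haD
  have htK : t ∉ ClS (del1 O s(u, v)) D := fun ht => Set.disjoint_left.1 hs ht htT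
  have hv : v ∉ ClS (del1 O s(u, v)) D := by
    intro hv
    refine htK (Rch.mem_of_closed (ClS (del1 O s(u, v)) D) haK ?_ hr)
    intro b hb c hbc
    by_cases heq : s(b, c) = s(u, v)
    · rcases Sym2.eq_iff.1 heq with ⟨rfl, rfl⟩ | ⟨rfl, rfl⟩
      · exact hv
      · exact hu
    · exact ClS_tail hb ⟨hbc, heq⟩
  rcases dich hv haK hr with ht | ⟨_, ht⟩
  · exact absurd ht htK
  · exact ⟨he, hu, hv, hs, t, htT, ht⟩

theorem piv_of_sep {O : Set (Sym2 W)} {D T : Set W} {e : Sym2 W} (h : (ClS O D ∩ T).Nonempty)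
    (he : e ∈ O) (hs : Disjoint (ClS (del1 O e) D) T) : ∃ u v, e = s(u, v) ∧ Piv O D T u v := by
  induction e using Sym2.ind with
  | _ x y =>
    obtain ⟨t, ⟨a, haD, hr⟩, htT⟩ := h
    rcases hr.del1_or (u := x) (v := y) with h1 | h1 | h1
    · exact absurd htT (Set.disjoint_left.1 hs ⟨a, haD, h1⟩)
    · exact ⟨x, y, rfl, piv_aux ⟨t, ⟨a, haD, hr⟩, htT⟩ he hs ⟨a, haD, h1⟩⟩
    · have hsw : s(x, y) = s(y, x) := Sym2.eq_swap
      refine ⟨y, x, hsw, ?_⟩
      rw [hsw] at he hs h1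
      exact piv_aux ⟨t, ⟨a, haD, hr⟩, htT⟩ he hs ⟨a, haD, h1⟩

theorem Piv.nonempty {O : Set (Sym2 W)} {D T : Set W} {u v : W} (h : Piv O D T u v) :
    (ClS O D ∩ T).Nonempty := by
  obtain ⟨he, hu, _, _, t, htT, hr⟩ := h
  exact ⟨t, ClS_trans (ClS_tail (ClS_mono (del1_subset _ _) _ hu) he)
    (hr.mono (off_subset _ _)), htT⟩

theorem Piv.dir_unique {O : Set (Sym2 W)} {D T : Set W} {u v u' v' : W} (h : Piv O D T u v)
    (h' : Piv O D T u' v') (he : s(u, v) = s(u', v')) : u = u' ∧ v = v' := by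
  rcases Sym2.eq_iff.1 he with h1 | ⟨rfl, rfl⟩
  · exact h1
  · exfalso
    have h1 := h'.2.1
    rw [← he] at h1
    exact h.2.2.1 h1

theorem ClS_eq_union {O : Set (Sym2 W)} {D : Set W} {u v : W} (he : s(u, v) ∈ O)
    (hu : u ∈ ClS (del1 O s(u, v)) D) (hv : v ∉ ClS (del1 O s(u, v)) D) :
    ClS O D = ClS (del1 O s(u, v)) D ∪ {x | Rch (off O (ClS (del1 O s(u, v)) D)) v x} := by
  ext x
  constructor
  · rintro ⟨a, haD, hr⟩
    rcases dich hv (subset_ClS _ _ haD) hr with h1 | ⟨_, h1⟩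
    · exact Or.inl h1
    · exact Or.inr h1
  · rintro (h1 | h1)
    · exact ClS_mono (del1_subset _ _) _ h1
    · exact ClS_trans (ClS_tail (ClS_mono (del1_subset _ _) _ hu) he)
        (Rch.mono (off_subset _ _) h1)

theorem ClS_disjoint_union {O : Set (Sym2 W)} {D : Set W} {u v : W}
    (hv : v ∉ ClS (del1 O s(u, v)) D) :
    Disjoint (ClS (del1 O s(u, v)) D) {x | Rch (off O (ClS (del1 O s(u, v)) D)) v x} := by
  rw [Set.disjoint_right]
  intro x hx
  refine Rch.induct (P := fun z => z ∉ ClS (del1 O s(u, v)) D) hv ?_ hx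
  intro b c _ hbc _
  exact (mk_mem_off.1 hbc).2.2

/-- if no edge of `off O K` separates `v` from `T` off `K`... : an edge separating `v` from `T` off
`K` separates `D` from `T` -/
theorem Piv.sep_lift {O : Set (Sym2 W)} {D T : Set W} {u v : W} (h : Piv O D T u v) {f : Sym2 W}
    (hf : Sep (off O (ClS (del1 O s(u, v)) D)) f v T) :
    f ∈ O ∧ f ≠ s(u, v) ∧ Disjoint (ClS (del1 O f) D) T ∧
      ClS (del1 O s(u, v)) D ⊆ ClS (del1 O f) D ∧ v ∈ ClS (del1 O f) D := by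
  obtain ⟨he, hu, hv, hdis, _⟩ := h
  obtain ⟨hf1, hf2⟩ := hf
  have hfO : f ∈ O := (mem_off.1 hf1).1
  have hfK : ∀ x ∈ f, x ∉ ClS (del1 O s(u, v)) D := (mem_off.1 hf1).2
  have hne : f ≠ s(u, v) := by
    rintro rfl
    exact hfK u (Sym2.mem_mk_left u v) hu
  have hsub : ClS (del1 O s(u, v)) D ⊆ ClS (del1 O f) D := by
    rintro w ⟨a, haD, hr⟩
    refine ⟨a, haD, (rch_cut haD hr).mono ?_⟩
    rintro g ⟨hg, hgK⟩
    refine ⟨hg.1, ?_⟩
    rintro rfl
    exact hfK _ (Sym2.out_fst_mem g) (hgK _ (Sym2.out_fst_mem g))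
  refine ⟨hfO, hne, ?_, hsub, ClS_tail (hsub hu) ⟨he, fun hh => hne hh.symm⟩⟩
  rw [Set.disjoint_left]
  rintro t ⟨a, haD, hr⟩ htT
  have key : t ∈ ClS (del1 O s(u, v)) D ∨ (t ∉ ClS (del1 O s(u, v)) D ∧
      Rch (del1 (off O (ClS (del1 O s(u, v)) D)) f) v t) := by
    refine Rch.induct (P := fun t => t ∈ ClS (del1 O s(u, v)) D ∨
      (t ∉ ClS (del1 O s(u, v)) D ∧ Rch (del1 (off O (ClS (del1 O s(u, v)) D)) f) v t))
      (Or.inl (subset_ClS _ _ haD)) ?_ hr
    intro b c _ hbc hb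
    exact step_dich hv (del1_subset _ _)
      (fun b c h1 h2 h3 => ⟨mk_mem_off.2 ⟨h1.1, h2, h3⟩, h1.2⟩) hbc hb
  rcases key with h1 | ⟨_, h1⟩
  · exact Set.disjoint_left.1 hdis h1 htT
  · exact hf2 ⟨t, htT, h1⟩

end Pool.Agent.PB
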