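import Pool.Agent.PB.G.MengerT
import Pool.Agent.PB.G.Piv

/-!
# PB-G-KernC (section 2.5 (iii), 2.6): case (iii) gives two edge-disjoint connections

`CaseIII.not_sep`: in case (iii) no edge separates `V(A) ∪ {y}` from `T`. `CaseIII.two`: hence
`Two O (A.verts ∪ {y}) T`. `EPrime.no_sep`, `EPrime.two`: the same for `E'(O;y,u;A)` with `T = {u}`.

PLAN of `CaseIII.not_sep`. Suppose e ∈ O with `Disjoint (ClS (del1 O e) (A.verts ∪ {y})) T`. Then e separates y from T (`sep_iff`,
ClS_mono_right), and `piv_of_sep` for D = {y}: e = s(u,v), u ∈ K = Cl (del1 O e) y, v ∉ K, v → t ∈ T in `off O K`, i.e.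
(`rch_off_Cl_iff`) in del1 O e. By (iii): u ∈ ClA A O y. Every vertex x with Rch (del1 O e) v x is not in A.verts (otherwise
x → v → t in del1 O e, so t ∈ ClS (del1 O e) A.verts ∩ T). So: v ∉ A.S, e ∉ A.F (v would be in A.verts), hence v ∈ ClA A O y
(`ClA_closed`), and by `Rch.induct` along v → t in del1 O e: every step is an edge of O with end points not in A.verts, so not in A.F and
end points not in A.S: the connection stays in `ClA A O y`: t ∈ ClA A O y, i.e. RchA A O y T: contradiction with (iii).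
`CaseIII.two`: `menger_first` with D = A.verts ∪ {y}: the second alternative is excluded by `CaseIII.not_sep`.
`EPrime.no_sep`: T = {u}; EPrime O y u A gives ¬ RchA A O y {u} and the statement about near end points: CaseIII O y {u} A by
unfolding. Reformulate: ∃ a ∈ A.verts ∪ {y}, Rch (del1 O e) a u (if e ∉ O then del1 O e = O and a = y).
-/

set_option autoImplicit false

namespace Pool.Agent.PB

variable {W : Type*}

theorem CaseIII.not_sep {O : Set (Sym2 W)} {y : W} {T : Set W} {A : Del W} (h : RchT O y T)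
    (h3 : CaseIII O y T A) {e : Sym2 W} (he : e ∈ O) :
    ¬ Disjoint (ClS (del1 O e) (A.verts ∪ {y})) T := by
  intro hd
  have hd' : Disjoint (ClS (del1 O e) {y}) T :=
    hd.mono_left (ClS_mono_right _ Set.subset_union_right)
  obtain ⟨u, v, rfl, hp⟩ := piv_of_sep (rchT_iff.1 h) he hd'
  obtain ⟨-, hu, hv, -, t, ht, hvt⟩ := hp
  rw [rch_off_ClS_iff hu hv] at hvt
  have hu' : Rch (del1 O s(u, v)) y u := by
    rw [ClS_singleton] at hu
    exact hu
  have huA : u ∈ ClA A O y := h3.2 _ (sep_iff.2 ⟨he, hd'⟩) u (Sym2.mem_mk_left u v) hu'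
  -- vertices reachable from `v` are not touched by `A`
  have hnv : ∀ x, Rch (del1 O s(u, v)) v x → x ∉ A.verts := by
    intro x hx hxA
    exact Set.disjoint_left.1 hd ⟨x, Or.inl hxA, hx.symm.trans hvt⟩ ht
  have hnS : ∀ x, Rch (del1 O s(u, v)) v x → x ∉ A.S := fun x hx hxS => hnv x hx (Or.inl hxS)
  have hnF : ∀ x f, Rch (del1 O s(u, v)) v x → x ∈ f → f ∉ A.F :=
    fun x f hx hxf hf => hnv x hx (Or.inr ⟨f, hf, hxf⟩)
  have hvA : v ∈ ClA A O y :=
    ClA_closed huA he (hnF v _ (Rch.refl _ _) (Sym2.mem_mk_right u v)) (hnS v (Rch.refl _ _))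
  apply h3.1
  refine ⟨t, ht, ?_⟩
  refine Rch.induct (P := fun z => z ∈ ClA A O y) hvA ?_ hvt
  intro a b hva hab ha
  have hvb := hva.tail hab
  exact ClA_closed ha hab.1 (hnF b _ hvb (Sym2.mem_mk_right a b)) (hnS b hvb)

theorem CaseIII.two {O : Set (Sym2 W)} {y : W} {T : Set W} {A : Del W} (h : RchT O y T)
    (h3 : CaseIII O y T A) : Two O (A.verts ∪ {y}) T := by
  obtain ⟨t, ht, hr⟩ := h
  have hne : (ClS O (A.verts ∪ {y}) ∩ T).Nonempty :=
    ⟨t, ⟨y, Or.inr (Set.mem_singleton y), hr⟩, ht⟩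
  rcases menger_first hne with h1 | ⟨z, z', hz, -, -, hd⟩
  · exact h1
  · exact absurd hd (CaseIII.not_sep ⟨t, ht, hr⟩ h3 hz)

private theorem eprime_caseIII {O : Set (Sym2 W)} {y u : W} {A : Del W} (h : EPrime O y u A) :
    CaseIII O y {u} A := by
  refine ⟨?_, h.2.2⟩
  rintro ⟨t, ht, hr⟩
  rw [Set.mem_singleton_iff] at ht
  subst ht
  exact h.2.1 hr

theorem EPrime.no_sep {O : Set (Sym2 W)} {y u : W} {A : Del W} (h : EPrime O y u A)
    (e : Sym2 W) : ∃ a ∈ A.verts ∪ {y}, Rch (del1 O e) a u := by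
  by_cases he : e ∈ O
  · have h1 := CaseIII.not_sep (rchT_singleton.2 h.1) (eprime_caseIII h) he
    rw [Set.not_disjoint_iff] at h1
    obtain ⟨x, ⟨a, ha, hr⟩, hx⟩ := h1
    rw [Set.mem_singleton_iff] at hx
    subst hx
    exact ⟨a, ha, hr⟩
  · rw [del1_of_notMem he]
    exact ⟨y, Or.inr (Set.mem_singleton y), h.1⟩

theorem EPrime.two {O : Set (Sym2 W)} {y u : W} {A : Del W} (h : EPrime O y u A) :
    Two O (A.verts ∪ {y}) {u} :=
  CaseIII.two (rchT_singleton.2 h.1) (eprime_caseIII h)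

end Pool.Agent.PB
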