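import Pool.Agent.PB.G.TB
import Pool.Agent.PB.G.KernC

/-!
# PB-G-Diag (section 2.8, for 4.2): the diagram types

PLAN. `EPrime.diag`: `EPrime.tbound`, then `attach` with k = 4, j0 = 0 (Rch O y c); `fin_cases j` gives the four
alternatives in this order of pairs (compute `Function.update` and `Matrix.vecCons` by `convert` + `funext` + `fin_cases`; or unfold:
state a lemma that `DisjConn` only depends on the values of q: rewrite with `funext`).
`DConn.diag`: DConn O y u: no separating edge, `menger_first` (D = {y}, T = {u}): `DisjConn O ![(y,u),(y,u)]`; `attach` with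
k = 2, j0 = 0; j = 0 gives `![(z,u),(z,c),(y,z),(y,u)]`, j = 1 gives `![(z,u),(z,c),(y,u),(y,z)]`: permute by `DisjConn.comp`.
`DConn.two` : no attachment.
-/

set_option autoImplicit false

namespace Pool.Agent.PB

variable {W : Type*}

theorem EPrime.diag {O : Set (Sym2 W)} {y u c : W} {A : Del W} (h : EPrime O y u A)
    (hc : Rch O y c) : ∃ a ∈ A.verts, ∃ w z,
      DisjConn O ![(z, w), (z, c), (y, z), (w, a), (a, u), (w, u)] ∨
      DisjConn O ![(z, a), (z, c), (y, w), (w, z), (a, u), (w, u)] ∨
      DisjConn O ![(z, u), (z, c), (y, w), (w, a), (a, z), (w, u)] ∨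
      DisjConn O ![(z, u), (z, c), (y, w), (w, a), (a, u), (w, z)] := by
  obtain ⟨a, ha, w, h4⟩ := h.tbound
  obtain ⟨j, z, hj⟩ := attach h4 (j0 := 0) hc
  refine ⟨a, ha, w, z, ?_⟩
  fin_cases j
  · left
    convert hj using 1
    funext i
    fin_cases i <;> rfl
  · right; left
    convert hj using 1
    funext i
    fin_cases i <;> rfl
  · right; right; left
    convert hj using 1
    funext i
    fin_cases i <;> rfl
  · right; right; right
    convert hj using 1
    funext i
    fin_cases i <;> rfl

theorem DConn.two {O : Set (Sym2 W)} {y u : W} (h : DConn O y u) :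
    DisjConn O ![(y, u), (y, u)] := by
  have hne : (ClS O {y} ∩ {u}).Nonempty :=
    ⟨u, ⟨y, Set.mem_singleton y, h.1⟩, Set.mem_singleton u⟩
  rcases menger_first hne with ⟨a, ha, a', ha', t, ht, t', ht', hc⟩ | ⟨z, z', hz, -, -, hd⟩
  · rw [Set.mem_singleton_iff] at ha ha' ht ht'
    subst ha
    subst ha'
    subst ht
    subst ht'
    exact hc
  · exact absurd (sep_iff.2 ⟨hz, hd⟩) (h.2 s(z, z'))

theorem DConn.diag {O : Set (Sym2 W)} {y u c : W} (h : DConn O y u) (hc : Rch O y c) :
    ∃ z, DisjConn O ![(z, u), (z, c), (y, z), (y, u)] := by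
  obtain ⟨j, z, hj⟩ := attach h.two (j0 := 0) hc
  refine ⟨z, ?_⟩
  fin_cases j
  · convert hj using 1
    funext i
    fin_cases i <;> rfl
  · have h1 := hj.comp (f := ![0, 1, 3, 2]) (by decide)
    convert h1 using 1
    funext i
    fin_cases i <;> rfl

end Pool.Agent.PB
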