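import Pool.Agent.PB.G.Base

/-!
# PB-G-Split (section 2.7/2.8 tools): splitting a connection at a vertex, attaching a branch

`exists_split`: a connection `x → y` in `O` that does not avoid `K` passes through some `a ∈ K`:
edge-disjoint connections `x..a`, `a..y`.
`attach`: given edge-disjoint connections `q j` and a vertex `c` in the cluster of one of their starting points, there are `j`,
`z` and edge-disjoint connections `(z, (q j).2)`, `(z, c)`, and `q` with the `j`-th pair replaced by `((q j).1, z)`.
`tree`: connection to `x` and to `T` branch at some `w`.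

PLAN. Lemma (path): if `Rch O x y` there is a simple walk: by `rch_iff_reachable`, `SimpleGraph.Reachable`, `SimpleGraph.Walk.toPath`
(or `.bypass`), `p : (SimpleGraph.fromEdgeSet O).Walk x y` with `p.IsPath`. Its edge set `{e | e ∈ p.edges} ⊆ O`
(`SimpleGraph.Walk.edges_subset_edgeSet`, `SimpleGraph.edgeSet_fromEdgeSet`), and for `a ∈ p.support`: with p1 = p.takeUntil a h, p2 = p.dropUntil a h:
`SimpleGraph.Walk.take_spec`, `edges_append`, `IsPath.isTrail`, `edges_nodup`: the edge sets of p1 and p2 are disjoint and contained in that of p;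
`Rch {e | e ∈ p1.edges} x a` (lemma: `Rch {e | e ∈ p.edges} x y` for every walk, induction on p).
`exists_split`: if x ∈ K: a = x, sets ∅ and O. Otherwise p path x → y in O; if no vertex of the support is in K then all edges of p
are in `off O K` (end points of edges of p are in the support: `SimpleGraph.Walk.fst_mem_support_of_mem_edges` and `snd_..`), so
`Rch (off O K) x y`: excluded. So some a ∈ support ∩ K: split.
`attach`: S j from h; p j a path in (fromEdgeSet (S j)) from (q j).1 to (q j).2, P j = its edge set ⊆ S j; U = union of the supports; (q j0).1 ∈ U;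
`rch_last_visit`: r ∈ U, `Rch Off r c`, Off = {f ∈ O | ¬ ∀ z ∈ f, z ∈ U}, disjoint from every P j (end points of edges of p j are in U). r ∈
support of p j: take z = r; the new family of edge sets: P j'' (dropUntil) for (z, (q j).2), Off for (z, c), P j' (takeUntil) at the
index j, P i for i ≠ j: `Matrix.vecCons (Pj'') (Matrix.vecCons Off (Function.update P j Pj'))`. Pairwise disjoint: prove it for indices in
Fin (k+2) by `Fin.cases` twice (Fin.cons_zero, Fin.cons_succ / Matrix.cons_val_succ).
`DisjConn.comp`: compose the family with the injective map. `tree`: `attach` with k = 1, q = ![(y, x)].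
-/

set_option autoImplicit false

namespace Pool.Agent.PB

variable {W : Type*}

/-- the edge set of a walk carries a connection -/
private theorem rch_of_walk {O : Set (Sym2 W)} {x y : W}
    (p : (SimpleGraph.fromEdgeSet O).Walk x y) : Rch {e | e ∈ p.edges} x y := by
  induction p with
  | nil => exact Rch.refl _ _
  | cons h p ih =>
    rw [SimpleGraph.Walk.edges_cons]
    exact Rch.head (List.mem_cons_self) (ih.mono fun e he => List.mem_cons_of_mem _ he)

/-- a simple path in `O`: its edge set `P` and its vertex set `U`, and how it splits -/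
private theorem path_data {O : Set (Sym2 W)} {x y : W} (h : Rch O x y) :
    ∃ (P : Set (Sym2 W)) (U : Set W), P ⊆ O ∧ x ∈ U ∧ (∀ e ∈ P, ∀ z ∈ e, z ∈ U) ∧
      ∀ a ∈ U, ∃ P1 P2 : Set (Sym2 W), P1 ⊆ P ∧ P2 ⊆ P ∧ Disjoint P1 P2 ∧
        Rch P1 x a ∧ Rch P2 a y := by
  classical
  obtain ⟨w⟩ := rch_iff_reachable.1 h
  have hp : w.bypass.IsPath := w.bypass_isPath
  generalize w.bypass = p at hp
  refine ⟨{e | e ∈ p.edges}, {z | z ∈ p.support}, ?_, p.start_mem_support, ?_, ?_⟩
  · intro e he
    have h1 := p.edges_subset_edgeSet he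
    rw [SimpleGraph.edgeSet_fromEdgeSet] at h1
    exact h1.1
  · intro e he z hz
    induction e using Sym2.ind with
    | _ a b =>
      rcases Sym2.mem_iff.1 hz with rfl | rfl
      · exact p.fst_mem_support_of_mem_edges he
      · exact p.snd_mem_support_of_mem_edges he
  · intro a ha
    have hs : (p.takeUntil a ha).append (p.dropUntil a ha) = p := p.take_spec ha
    have he : p.edges = (p.takeUntil a ha).edges ++ (p.dropUntil a ha).edges := by
      rw [← SimpleGraph.Walk.edges_append, hs]
    have hn : ((p.takeUntil a ha).edges ++ (p.dropUntil a ha).edges).Nodup := by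
      rw [← he]; exact hp.isTrail.edges_nodup
    refine ⟨{e | e ∈ (p.takeUntil a ha).edges}, {e | e ∈ (p.dropUntil a ha).edges},
      ?_, ?_, ?_, rch_of_walk _, rch_of_walk _⟩
    · intro e h1
      change e ∈ p.edges
      rw [he]; exact List.mem_append_left _ h1
    · intro e h1
      change e ∈ p.edges
      rw [he]; exact List.mem_append_right _ h1
    · rw [Set.disjoint_left]
      intro e h1 h2
      exact (List.disjoint_of_nodup_append hn) h1 h2

theorem exists_split {O : Set (Sym2 W)} {x y : W} (h : Rch O x y) (K : Set W)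
    (hK : x ∈ K ∨ ¬ Rch (off O K) x y) : ∃ a ∈ K, DisjConn O ![(x, a), (a, y)] := by
  by_cases hx : x ∈ K
  · exact ⟨x, hx, disjConn_two.2 ⟨∅, O, Set.empty_subset _, subset_rfl, Set.empty_disjoint _,
      Rch.refl _ _, h⟩⟩
  · have hK' : ¬ Rch (off O K) x y := hK.resolve_left hx
    obtain ⟨P, U, hPO, hxU, hend, hsp⟩ := path_data h
    by_cases hU : ∃ a ∈ U, a ∈ K
    · obtain ⟨a, haU, haK⟩ := hU
      obtain ⟨P1, P2, h1, h2, h3, h4, h5⟩ := hsp a haU
      exact ⟨a, haK, disjConn_two.2 ⟨P1, P2, h1.trans hPO, h2.trans hPO, h3, h4, h5⟩⟩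
    · push Not at hU
      obtain ⟨P1, P2, h1, h2, h3, h4, h5⟩ := hsp x hxU
      exact absurd (h5.mono fun e he =>
        mem_off.2 ⟨hPO (h2 he), fun z hz => hU z (hend e (h2 he) z hz)⟩) hK'

theorem attach {O : Set (Sym2 W)} {k : ℕ} {q : Fin k → W × W} (h : DisjConn O q) (j0 : Fin k)
    {c : W} (hc : Rch O (q j0).1 c) :
    ∃ (j : Fin k) (z : W), DisjConn O
      (Matrix.vecCons (z, (q j).2) (Matrix.vecCons (z, c) (Function.update q j ((q j).1, z)))) := by
  obtain ⟨S, hSO, hSd, hSr⟩ := h
  choose P U hPS hxU hend hsp using fun j => path_data (hSr j)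
  obtain ⟨r, hr, hrc⟩ := rch_last_visit (U := ⋃ j, U j) (Set.mem_iUnion.2 ⟨j0, hxU j0⟩) hc
  obtain ⟨j, hrj⟩ := Set.mem_iUnion.1 hr
  obtain ⟨P1, P2, h1, h2, h3, h4, h5⟩ := hsp j r hrj
  have hoffP : ∀ i, Disjoint {f ∈ O | ¬ ∀ z ∈ f, z ∈ ⋃ j, U j} (P i) := by
    intro i
    rw [Set.disjoint_left]
    rintro f ⟨_, hf⟩ hfP
    exact hf fun z hz => Set.mem_iUnion.2 ⟨i, hend i f hfP z hz⟩
  have hB : ∀ i, Function.update P j P1 i ⊆ P i := by
    intro i
    by_cases hij : i = j
    · subst hij
      rw [Function.update_self]; exact h1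
    · rw [Function.update_of_ne hij]
  have hPd : ∀ i i', i ≠ i' → Disjoint (P i) (P i') := fun i i' hii =>
    Set.disjoint_of_subset (hPS i) (hPS i') (hSd hii)
  have hP2B : ∀ i, Disjoint P2 (Function.update P j P1 i) := by
    intro i
    by_cases hij : i = j
    · subst hij
      rw [Function.update_self]; exact h3.symm
    · exact Set.disjoint_of_subset h2 (hB i) (hPd j i (Ne.symm hij))
  refine ⟨j, r, Matrix.vecCons P2 (Matrix.vecCons {f ∈ O | ¬ ∀ z ∈ f, z ∈ ⋃ j, U j}
    (Function.update P j P1)), ?_, ?_, ?_⟩
  · refine Fin.cases ?_ (Fin.cases ?_ fun i => ?_)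
    · exact h2.trans ((hPS j).trans (hSO j))
    · exact fun f hf => hf.1
    · exact (hB i).trans ((hPS i).trans (hSO i))
  · intro a b hab
    change Disjoint _ _
    induction a using Fin.cases with
    | zero =>
      induction b using Fin.cases with
      | zero => exact absurd rfl hab
      | succ b =>
        induction b using Fin.cases with
        | zero => exact Set.disjoint_of_subset h2 subset_rfl (hoffP j).symm
        | succ i' => exact hP2B i'
    | succ a =>
      induction a using Fin.cases with
      | zero =>
        induction b using Fin.cases with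
        | zero => exact (Set.disjoint_of_subset h2 subset_rfl (hoffP j).symm).symm
        | succ b =>
          induction b using Fin.cases with
          | zero => exact absurd rfl hab
          | succ i' => exact Set.disjoint_of_subset subset_rfl (hB i') (hoffP i')
      | succ i =>
        induction b using Fin.cases with
        | zero => exact (hP2B i).symm
        | succ b =>
          induction b using Fin.cases with
          | zero => exact (Set.disjoint_of_subset subset_rfl (hB i) (hoffP i)).symm
          | succ i' =>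
            have hii : i ≠ i' := fun h => hab (by rw [h])
            exact Set.disjoint_of_subset (hB i) (hB i') (hPd i i' hii)
  · refine Fin.cases ?_ (Fin.cases ?_ fun i => ?_)
    · exact h5
    · exact hrc
    · change Rch (Function.update P j P1 i) (Function.update q j ((q j).1, r) i).1
        (Function.update q j ((q j).1, r) i).2
      by_cases hij : i = j
      · subst hij
        rw [Function.update_self, Function.update_self]
        exact h4
      · rw [Function.update_of_ne hij, Function.update_of_ne hij]
        obtain ⟨Q1, Q2, g1, g2, g3, g4, g5⟩ := hsp i (q i).1 (hxU i)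
        exact g5.mono g2

theorem DisjConn.comp {O : Set (Sym2 W)} {k m : ℕ} {q : Fin k → W × W} (h : DisjConn O q)
    {f : Fin m → Fin k} (hf : Function.Injective f) : DisjConn O (q ∘ f) := by
  obtain ⟨S, hSO, hSd, hSr⟩ := h
  exact ⟨S ∘ f, fun j => hSO (f j), fun i j hij => hSd (hf.ne hij), fun j => hSr (f j)⟩

theorem tree {O : Set (Sym2 W)} {y x : W} {T : Set W} (h : Rch O y x) (hT : RchT O y T) :
    ∃ w, ∃ t ∈ T, DisjConn O ![(y, w), (w, x), (w, t)] := by
  obtain ⟨t, ht, hyt⟩ := hT
  have h0 : DisjConn O ![(y, x)] := by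
    refine ⟨fun _ => O, fun _ => subset_rfl, ?_, ?_⟩
    · intro i j hij
      exact absurd (Subsingleton.elim i j) hij
    · intro j
      fin_cases j
      exact h
  obtain ⟨j, z, hd⟩ := attach (c := t) h0 0 hyt
  obtain rfl : j = 0 := Subsingleton.elim _ _
  refine ⟨z, t, ht, ?_⟩
  have h1 := hd.comp (f := ![2, 0, 1]) (by decide)
  convert h1 using 1
  funext i
  fin_cases i
  · simp
  · simp
  · simp

end Pool.Agent.PB
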