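import Pool.Agent.PB.G.KernA

/-!
# PB-G-KernB (section 2.5): the three cases are exclusive, uniqueness and converse in (ii)

PLANS. Let `h : KD O y T A u v`, e = s(u,v), K = Cl (del1 O e) y; `h` gives `Piv O {y} T u v` (`KD.piv`: u ∈ K is part of
EPrime (del1 O e) y u A; `rchA_ofSet`, `ClS_singleton`).
`KD.rchT`: Piv.nonempty + rchT_iff. `KD.notMem`: u ∉ ClA A O y: otherwise by `ClA_del1` u ∈ ClA A (del1 O e) y, contradiction with EPrime.
`KD.not_rchA`: if y → t ∈ T off A: t ∉ K, so the connection in A.rem O leaves K (`Rch.exists_cross` with K, y ∈ K): by an edge of O from K to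
 outside, which must be e, from u: so u ∈ ClA A O y: contradiction.
`KD.not_caseIII`: e is a separating edge (`sep_iff`) with near end point u ∉ ClA A O y.
`KD.unique`: both pairs are pivotal. If s(u,v) = s(u',v'): `Piv.dir_unique`. Otherwise `Piv.order`; by symmetry say K ⊆ K', v ∈ K'
 (K' = Cl (del1 O e') y). e ∈ del1 O e' and e separates y from u' in del1 O e': if y → u' in del1 (del1 O e') e ⊆ del1 O e then u' ∈ K and, as
 e' ∈ del1 O e, v' ∈ K ⊆ K', contradiction. The near end point of e for this separation is u: Rch (del1 (del1 O e') e) y u by `rch_del1_del1`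
 (with (u',v') in the role of (u,v), f = e, x = u ∈ K ⊆ K'; Rch (del1 O e) y u holds). So EPrime (del1 O e') y u' A gives u ∈ ClA A (del1 O e') y ⊆
 ClA A O y, contradicting `KD.notMem`.
`EPrime_of_caseIII` / `caseIII_iff_EPrime`: T = {x}: unfold; `Sep O e y {x}` is literally in EPrime; `RchA A O y {x}` ↔ x ∈ ClA A O y.
`DConn_iff_EPrime`: A = Del.ofSet {y}: ClA is empty (`ClA_eq_empty`); if e separates y from u then, since y → u in O, it has a near end
 point (`piv_of_sep`), which would be in the empty set.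
-/

set_option autoImplicit false

namespace Pool.Agent.PB

variable {W : Type*}

theorem KD.piv {O : Set (Sym2 W)} {y : W} {T : Set W} {A : Del W} {u v : W}
    (h : KD O y T A u v) : Piv O {y} T u v := by
  obtain ⟨h1, h2, h3, h4, h5⟩ := h
  obtain ⟨-, t, ht, hr⟩ := rchA_ofSet.1 h5
  unfold Piv
  rw [ClS_singleton]
  exact ⟨h1, h2.1, h3, h4, t, ht, hr⟩

theorem KD.rchT {O : Set (Sym2 W)} {y : W} {T : Set W} {A : Del W} {u v : W}
    (h : KD O y T A u v) : RchT O y T := rchT_iff.2 h.piv.nonempty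

theorem KD.notMem {O : Set (Sym2 W)} {y : W} {T : Set W} {A : Del W} {u v : W}
    (h : KD O y T A u v) : u ∉ ClA A O y := fun hu =>
  h.2.1.2.1 (ClA_del1 h.2.1.1 h.2.2.1 hu h.2.1.1)

theorem KD.not_rchA {O : Set (Sym2 W)} {y : W} {T : Set W} {A : Del W} {u v : W}
    (h : KD O y T A u v) : ¬ RchA A O y T := by
  rintro ⟨t, ht, hy, hr⟩
  have htK : t ∉ Cl (del1 O s(u, v)) y := fun hK => Set.disjoint_left.1 h.2.2.2.1 hK ht
  obtain ⟨a, b, ha, hb, hab, hya⟩ := Rch.exists_cross _ (self_mem_Cl _ y) htK hr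
  have heq : s(a, b) = s(u, v) := by
    by_contra hn
    exact hb (Cl_closed ha ⟨hab.1, hn⟩)
  rcases Sym2.eq_iff.1 heq with ⟨rfl, rfl⟩ | ⟨rfl, rfl⟩
  · exact h.notMem ⟨hy, hya⟩
  · exact h.2.2.1 ha

private theorem KD.sep {O : Set (Sym2 W)} {y : W} {T : Set W} {A : Del W} {u v : W}
    (h : KD O y T A u v) : Sep O s(u, v) y T := by
  rw [sep_iff, ClS_singleton]
  exact ⟨h.1, h.2.2.2.1⟩

theorem KD.not_caseIII {O : Set (Sym2 W)} {y : W} {T : Set W} {A : Del W} {u v : W}
    (h : KD O y T A u v) : ¬ CaseIII O y T A := fun h3 =>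
  h.notMem (h3.2 _ h.sep u (Sym2.mem_mk_left u v) h.2.1.1)

private theorem kd_aux {O : Set (Sym2 W)} {y : W} {T : Set W} {A : Del W} {u v u' v' : W}
    (h : KD O y T A u v) (h' : KD O y T A u' v') (hne : s(u, v) ≠ s(u', v'))
    (hK : ClS (del1 O s(u, v)) {y} ⊆ ClS (del1 O s(u', v')) {y}) : False := by
  rw [ClS_singleton, ClS_singleton] at hK
  have hsep : Sep (del1 O s(u', v')) s(u, v) y {u'} := by
    refine ⟨⟨h.1, hne⟩, ?_⟩
    rintro ⟨t, ht, hr⟩
    rw [Set.mem_singleton_iff] at ht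
    subst ht
    have hsub : del1 (del1 O s(t, v')) s(u, v) ⊆ del1 O s(u, v) :=
      del1_mono (del1_subset _ _) _
    have h1 : Rch (del1 O s(u, v)) y t := hr.mono hsub
    have h2 : v' ∈ Cl (del1 O s(u, v)) y := h1.tail ⟨h'.1, fun hh => hne hh.symm⟩
    exact h'.2.2.1 (hK h2)
  have hu : Rch (del1 (del1 O s(u', v')) s(u, v)) y u :=
    (rch_del1_del1 h'.2.1.1 h'.2.2.1 (hK h.2.1.1)).1 h.2.1.1
  have h3 := h'.2.1.2.2 _ hsep u (Sym2.mem_mk_left u v) hu
  exact h.notMem (ClA_mono A (del1_subset _ _) y h3)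

theorem KD.unique {O : Set (Sym2 W)} {y : W} {T : Set W} {A : Del W} {u v u' v' : W}
    (h : KD O y T A u v) (h' : KD O y T A u' v') : u = u' ∧ v = v' := by
  by_cases hne : s(u, v) = s(u', v')
  · exact h.piv.dir_unique h'.piv hne
  · exfalso
    rcases h.piv.order h'.piv hne with ⟨h1, -⟩ | ⟨h1, -⟩
    · exact kd_aux h h' hne h1
    · exact kd_aux h' h (fun hh => hne hh.symm) h1

theorem caseIII_iff_EPrime {O : Set (Sym2 W)} {y x : W} {A : Del W} :
    (Rch O y x ∧ CaseIII O y {x} A) ↔ EPrime O y x A := by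
  constructor
  · rintro ⟨h1, h2, h3⟩
    exact ⟨h1, fun hx => h2 ⟨x, Set.mem_singleton x, hx⟩, h3⟩
  · rintro ⟨h1, h2, h3⟩
    refine ⟨h1, ?_, h3⟩
    rintro ⟨t, ht, hr⟩
    rw [Set.mem_singleton_iff] at ht
    subst ht
    exact h2 hr

theorem DConn_iff_EPrime {O : Set (Sym2 W)} {y u : W} :
    EPrime O y u (Del.ofSet {y}) ↔ DConn O y u := by
  have hemp : ClA (Del.ofSet {y}) O y = ∅ := ClA_eq_empty (Set.mem_singleton y)
  constructor
  · rintro ⟨h1, -, h3⟩
    refine ⟨h1, fun e hsep => ?_⟩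
    have hne : (ClS O {y} ∩ {u}).Nonempty :=
      ⟨u, ⟨y, Set.mem_singleton y, h1⟩, Set.mem_singleton u⟩
    obtain ⟨he, hd⟩ := sep_iff.1 hsep
    obtain ⟨u0, v0, rfl, hp⟩ := piv_of_sep hne he hd
    have hu0 : Rch (del1 O s(u0, v0)) y u0 := by
      have := hp.2.1
      rw [ClS_singleton] at this
      exact this
    have h4 := h3 _ hsep u0 (Sym2.mem_mk_left u0 v0) hu0
    rw [hemp] at h4
    exact h4
  · rintro ⟨h1, h2⟩
    refine ⟨h1, ?_, fun e hs => absurd hs (h2 e)⟩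
    rw [hemp]
    exact Set.notMem_empty u

end Pool.Agent.PB
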