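import Pool.Agent.PB.Basic

/-!
# PROJECT PB, section 2 (deterministic part): definitions and small API (all proved here)

`off O K` = edges of `O` with no endpoint in `K`; `ClS O D` = vertices reachable from the set `D`;
`Two O D T` = two edge-disjoint connections from `D` to `T` (end points may coincide);
`Piv O D T u v` = the directed edge `(u,v)` separates `D` from `T`, with near end point `u`.
-/

set_option autoImplicit false
open scoped BigOperators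

namespace Pool.Agent.PB

variable {W : Type*}

/-- edges of `O` with no endpoint in `K` -/
def off (O : Set (Sym2 W)) (K : Set W) : Set (Sym2 W) := (Del.ofSet K).rem O

theorem mem_off {O : Set (Sym2 W)} {K : Set W} {e : Sym2 W} :
    e ∈ off O K ↔ e ∈ O ∧ ∀ x ∈ e, x ∉ K := by
  rw [off, Del.ofSet_rem]; rfl

theorem mk_mem_off {O : Set (Sym2 W)} {K : Set W} {a b : W} :
    s(a, b) ∈ off O K ↔ s(a, b) ∈ O ∧ a ∉ K ∧ b ∉ K := by
  rw [mem_off]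
  constructor
  · rintro ⟨h, h'⟩
    exact ⟨h, h' a (Sym2.mem_mk_left a b), h' b (Sym2.mem_mk_right a b)⟩
  · rintro ⟨h, ha, hb⟩
    refine ⟨h, fun x hx => ?_⟩
    rcases Sym2.mem_iff.1 hx with rfl | rfl
    · exact ha
    · exact hb

theorem off_subset (O : Set (Sym2 W)) (K : Set W) : off O K ⊆ O := fun _ h => (mem_off.1 h).1

theorem off_mono {O O' : Set (Sym2 W)} (h : O ⊆ O') (K : Set W) : off O K ⊆ off O' K :=
  fun _ he => mem_off.2 ⟨h (mem_off.1 he).1, (mem_off.1 he).2⟩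

theorem off_anti (O : Set (Sym2 W)) {K K' : Set W} (h : K ⊆ K') : off O K' ⊆ off O K :=
  fun _ he => mem_off.2 ⟨(mem_off.1 he).1, fun x hx hK => (mem_off.1 he).2 x hx (h hK)⟩

theorem rchA_ofSet {O : Set (Sym2 W)} {K : Set W} {v : W} {T : Set W} :
    RchA (Del.ofSet K) O v T ↔ v ∉ K ∧ ∃ t ∈ T, Rch (off O K) v t := by
  constructor
  · rintro ⟨t, ht, hv, hr⟩
    exact ⟨hv, t, ht, hr⟩
  · rintro ⟨hv, t, ht, hr⟩
    exact ⟨t, ht, hv, hr⟩

/-- the vertices reachable from the set `D` in `O` -/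
def ClS (O : Set (Sym2 W)) (D : Set W) : Set W := {x | ∃ a ∈ D, Rch O a x}

theorem mem_ClS {O : Set (Sym2 W)} {D : Set W} {x : W} : x ∈ ClS O D ↔ ∃ a ∈ D, Rch O a x := Iff.rfl

theorem ClS_singleton (O : Set (Sym2 W)) (y : W) : ClS O {y} = Cl O y := by
  ext x; simp [ClS, Cl]

theorem subset_ClS (O : Set (Sym2 W)) (D : Set W) : D ⊆ ClS O D := fun a ha => ⟨a, ha, Rch.refl _ _⟩

theorem ClS_mono {O O' : Set (Sym2 W)} (h : O ⊆ O') (D : Set W) : ClS O D ⊆ ClS O' D :=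
  fun _ ⟨a, ha, hr⟩ => ⟨a, ha, hr.mono h⟩

theorem ClS_mono_right (O : Set (Sym2 W)) {D D' : Set W} (h : D ⊆ D') : ClS O D ⊆ ClS O D' :=
  fun _ ⟨a, ha, hr⟩ => ⟨a, h ha, hr⟩

theorem ClS_tail {O : Set (Sym2 W)} {D : Set W} {x y : W} (h : x ∈ ClS O D) (h' : s(x, y) ∈ O) :
    y ∈ ClS O D := by
  obtain ⟨a, ha, hr⟩ := h
  exact ⟨a, ha, hr.tail h'⟩

theorem ClS_trans {O : Set (Sym2 W)} {D : Set W} {x y : W} (h : x ∈ ClS O D) (h' : Rch O x y) :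
    y ∈ ClS O D := by
  obtain ⟨a, ha, hr⟩ := h
  exact ⟨a, ha, hr.trans h'⟩

/-- two edge-disjoint connections from `D` to `T` (end points may coincide) -/
def Two (O : Set (Sym2 W)) (D T : Set W) : Prop :=
  ∃ a ∈ D, ∃ a' ∈ D, ∃ t ∈ T, ∃ t' ∈ T, DisjConn O ![(a, t), (a', t')]

/-- two edge-disjoint connections from `y`, one to `T1` and one to `T2` -/
def TwoT (O : Set (Sym2 W)) (y : W) (T1 T2 : Set W) : Prop :=
  ∃ t1 ∈ T1, ∃ t2 ∈ T2, DisjConn O ![(y, t1), (y, t2)]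

theorem disjConn_two {O : Set (Sym2 W)} {a b c d : W} : DisjConn O ![(a, b), (c, d)] ↔
    ∃ S1 S2 : Set (Sym2 W), S1 ⊆ O ∧ S2 ⊆ O ∧ Disjoint S1 S2 ∧ Rch S1 a b ∧ Rch S2 c d := by
  constructor
  · rintro ⟨S, h1, h2, h3⟩
    exact ⟨S 0, S 1, h1 0, h1 1, h2 (by decide), h3 0, h3 1⟩
  · rintro ⟨S1, S2, h1, h2, h3, h4, h5⟩
    refine ⟨![S1, S2], ?_, ?_, ?_⟩
    · intro j; fin_cases j
      · exact h1
      · exact h2
    · intro i j hij
      fin_cases i <;> fin_cases j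
      · exact absurd rfl hij
      · exact h3
      · exact h3.symm
      · exact absurd rfl hij
    · intro j; fin_cases j
      · exact h4
      · exact h5

theorem Two.mono {O O' : Set (Sym2 W)} (h : O ⊆ O') {D T : Set W} (h2 : Two O D T) : Two O' D T := by
  obtain ⟨a, ha, a', ha', t, ht, t', ht', hc⟩ := h2
  exact ⟨a, ha, a', ha', t, ht, t', ht', hc.mono h⟩

theorem TwoT.mono {O O' : Set (Sym2 W)} (h : O ⊆ O') {y : W} {T1 T2 : Set W}
    (h2 : TwoT O y T1 T2) : TwoT O' y T1 T2 := by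
  obtain ⟨t, ht, t', ht', hc⟩ := h2
  exact ⟨t, ht, t', ht', hc.mono h⟩

/-- `Two` in terms of edge sets -/
theorem two_iff {O : Set (Sym2 W)} {D T : Set W} : Two O D T ↔
    ∃ S1 S2 : Set (Sym2 W), S1 ⊆ O ∧ S2 ⊆ O ∧ Disjoint S1 S2 ∧
      (ClS S1 D ∩ T).Nonempty ∧ (ClS S2 D ∩ T).Nonempty := by
  constructor
  · rintro ⟨a, ha, a', ha', t, ht, t', ht', hc⟩
    obtain ⟨S1, S2, h1, h2, h3, h4, h5⟩ := disjConn_two.1 hc
    exact ⟨S1, S2, h1, h2, h3, ⟨t, ⟨a, ha, h4⟩, ht⟩, ⟨t', ⟨a', ha', h5⟩, ht'⟩⟩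
  · rintro ⟨S1, S2, h1, h2, h3, ⟨t, ⟨a, ha, h4⟩, ht⟩, ⟨t', ⟨a', ha', h5⟩, ht'⟩⟩
    exact ⟨a, ha, a', ha', t, ht, t', ht', disjConn_two.2 ⟨S1, S2, h1, h2, h3, h4, h5⟩⟩

theorem twoT_iff {O : Set (Sym2 W)} {y : W} {T1 T2 : Set W} : TwoT O y T1 T2 ↔
    ∃ S1 S2 : Set (Sym2 W), S1 ⊆ O ∧ S2 ⊆ O ∧ Disjoint S1 S2 ∧ RchT S1 y T1 ∧ RchT S2 y T2 := by
  constructor
  · rintro ⟨t, ht, t', ht', hc⟩
    obtain ⟨S1, S2, h1, h2, h3, h4, h5⟩ := disjConn_two.1 hc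
    exact ⟨S1, S2, h1, h2, h3, ⟨t, ht, h4⟩, ⟨t', ht', h5⟩⟩
  · rintro ⟨S1, S2, h1, h2, h3, ⟨t, ht, h4⟩, ⟨t', ht', h5⟩⟩
    exact ⟨t, ht, t', ht', disjConn_two.2 ⟨S1, S2, h1, h2, h3, h4, h5⟩⟩

/-- the directed edge `(u,v)` of `O` separates `D` from `T`: with `K` = vertices reachable from
`D` in `O \ e`: `u ∈ K`, `v ∉ K`, `K ∩ T = ∅`, `v → T` off `K` -/
def Piv (O : Set (Sym2 W)) (D T : Set W) (u v : W) : Prop :=
  s(u, v) ∈ O ∧ u ∈ ClS (del1 O s(u, v)) D ∧ v ∉ ClS (del1 O s(u, v)) D ∧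
    Disjoint (ClS (del1 O s(u, v)) D) T ∧ ∃ t ∈ T, Rch (off O (ClS (del1 O s(u, v)) D)) v t

theorem sep_iff {O : Set (Sym2 W)} {e : Sym2 W} {y : W} {T : Set W} :
    Sep O e y T ↔ e ∈ O ∧ Disjoint (ClS (del1 O e) {y}) T := by
  rw [Sep, ClS_singleton, Set.disjoint_left]
  constructor
  · rintro ⟨h, h'⟩
    exact ⟨h, fun t ht htT => h' ⟨t, htT, ht⟩⟩
  · rintro ⟨h, h'⟩
    exact ⟨h, fun ⟨t, htT, ht⟩ => h' ht htT⟩

theorem rchT_iff {O : Set (Sym2 W)} {y : W} {T : Set W} : RchT O y T ↔ (ClS O {y} ∩ T).Nonempty := by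
  rw [ClS_singleton]
  constructor
  · rintro ⟨t, ht, h⟩
    exact ⟨t, h, ht⟩
  · rintro ⟨t, h, ht⟩
    exact ⟨t, ht, h⟩

theorem rchT_singleton {O : Set (Sym2 W)} {y x : W} : RchT O y {x} ↔ Rch O y x := by
  simp [RchT]

/-- (5.1) the last edge separating `y` from `T1 ∪ T2`, in the form used for the exploration:
`K = C(O\e, y)` misses both targets and `{v → T1} ∘ {v → T2}` off `K` -/
def LastSep (O : Set (Sym2 W)) (y : W) (T1 T2 : Set W) (u v : W) : Prop :=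
  s(u, v) ∈ O ∧ u ∈ Cl (del1 O s(u, v)) y ∧ v ∉ Cl (del1 O s(u, v)) y ∧
    Disjoint (Cl (del1 O s(u, v)) y) (T1 ∪ T2) ∧
    TwoT (off O (Cl (del1 O s(u, v)) y)) v T1 T2

/-- (7.1) the first edge separating `y` from `T`: `y ⇔ u` in `O\e`, `K = C(O\e,y)` misses `v` and
`T`, and `v → T` off `K` -/
def FirstSep (O : Set (Sym2 W)) (y : W) (T : Set W) (u v : W) : Prop :=
  s(u, v) ∈ O ∧ DConn (del1 O s(u, v)) y u ∧ v ∉ Cl (del1 O s(u, v)) y ∧
    Disjoint (Cl (del1 O s(u, v)) y) T ∧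
    RchA (Del.ofSet (Cl (del1 O s(u, v)) y)) O v T

/-- (2.5)(ii): the directed edge `(u,v)` of the kernel decomposition -/
def KD (O : Set (Sym2 W)) (y : W) (T : Set W) (A : Del W) (u v : W) : Prop :=
  s(u, v) ∈ O ∧ EPrime (del1 O s(u, v)) y u A ∧ v ∉ Cl (del1 O s(u, v)) y ∧
    Disjoint (Cl (del1 O s(u, v)) y) T ∧
    RchA (Del.ofSet (Cl (del1 O s(u, v)) y)) O v T

/-- (2.5)(iii) -/
def CaseIII (O : Set (Sym2 W)) (y : W) (T : Set W) (A : Del W) : Prop :=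
  ¬ RchA A O y T ∧ ∀ e, Sep O e y T → ∀ u ∈ e, Rch (del1 O e) y u → u ∈ ClA A O y

/-- if `K` is closed under `O'` (edges of `O'` do not leave `K`) and `v ∉ K`, connections from `v`
in `O'` avoid `K` -/
theorem rch_off_of_closed {O' : Set (Sym2 W)} {K : Set W} {v x : W} (hv : v ∉ K)
    (hK : ∀ a b, s(a, b) ∈ O' → b ∈ K → a ∈ K) (h : Rch O' v x) :
    x ∉ K ∧ Rch (off O' K) v x := by
  refine Rch.induct (P := fun z => z ∉ K ∧ Rch (off O' K) v z) ⟨hv, Rch.refl _ _⟩ ?_ h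
  intro a b _ hab ha
  have hb : b ∉ K := fun hb => ha.1 (hK a b hab hb)
  exact ⟨hb, ha.2.tail (mk_mem_off.2 ⟨hab, ha.1, hb⟩)⟩

/-- for `e = {u,v}`, `K` = reachable from `D` in `O\e`, `u ∈ K`, `v ∉ K`: the cluster of `v` off
`K` is the cluster of `v` in `O\e` -/
theorem rch_off_ClS_iff {O : Set (Sym2 W)} {D : Set W} {u v x : W}
    (hu : u ∈ ClS (del1 O s(u, v)) D) (hv : v ∉ ClS (del1 O s(u, v)) D) :
    Rch (off O (ClS (del1 O s(u, v)) D)) v x ↔ Rch (del1 O s(u, v)) v x := by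
  constructor
  · intro h
    refine h.mono ?_
    intro e he
    refine ⟨(mem_off.1 he).1, ?_⟩
    rintro rfl
    exact (mem_off.1 he).2 u (Sym2.mem_mk_left u v) hu
  · intro h
    refine (rch_off_of_closed hv ?_ h).2.mono (off_mono (del1_subset _ _) _)
    intro a b hab hb
    exact ClS_tail hb (by rw [show s(b, a) = s(a, b) from Sym2.eq_swap]; exact hab)

theorem rch_off_Cl_iff {O : Set (Sym2 W)} {y u v x : W}
    (hu : u ∈ Cl (del1 O s(u, v)) y) (hv : v ∉ Cl (del1 O s(u, v)) y) :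
    Rch (off O (Cl (del1 O s(u, v)) y)) v x ↔ Rch (del1 O s(u, v)) v x := by
  have h := rch_off_ClS_iff (O := O) (D := {y}) (u := u) (v := v) (x := x)
  rw [ClS_singleton] at h
  exact h hu hv

/-- connections in a cut-down edge set: a connection from a point of `D` in `Q` only uses edges of
`Q` with both end points in `ClS Q D` -/
theorem rch_cut {Q : Set (Sym2 W)} {D : Set W} {a x : W} (ha : a ∈ D) (h : Rch Q a x) :
    Rch {f ∈ Q | ∀ z ∈ f, z ∈ ClS Q D} a x := by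
  refine Rch.induct (P := fun z => Rch {f ∈ Q | ∀ z ∈ f, z ∈ ClS Q D} a z) (Rch.refl _ _) ?_ h
  intro b c hb hbc hb'
  refine hb'.tail ⟨hbc, ?_⟩
  intro z hz
  rcases Sym2.mem_iff.1 hz with rfl | rfl
  · exact ⟨a, ha, hb⟩
  · exact ⟨a, ha, hb.tail hbc⟩

/-- the last visit to `U`: if `x` is reachable in `O` from a point of `U`, then `x` is reachable
from some point `r` of `U` by edges of `O` that do not have both end points in `U` -/
theorem rch_last_visit {O : Set (Sym2 W)} {U : Set W} {a x : W} (ha : a ∈ U) (h : Rch O a x) :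
    ∃ r ∈ U, Rch {f ∈ O | ¬ ∀ z ∈ f, z ∈ U} r x := by
  refine Rch.induct (P := fun y => ∃ r ∈ U, Rch {f ∈ O | ¬ ∀ z ∈ f, z ∈ U} r y)
    ⟨a, ha, Rch.refl _ _⟩ ?_ h
  rintro b c _ hbc ⟨r, hr, hrb⟩
  by_cases hc : ∀ z ∈ s(b, c), z ∈ U
  · exact ⟨c, hc c (Sym2.mem_mk_right b c), Rch.refl _ _⟩
  · exact ⟨r, hr, hrb.tail ⟨hbc, hc⟩⟩

end Pool.Agent.PB
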