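import Pool.Agent.PB.G.MengerT
import Pool.Agent.PB.G.Order

/-!
# PB-G-Cap (section 12.3): at least two vertices of `T` are reachable from the set `D`

Then EITHER there are two edge-disjoint connections from `D` to two distinct vertices of `T`, OR
there is a directed edge `(u,v)` of `O` separating `D` from `T` such that off `K` (= vertices reachable
from `D` in `O\e`) there are two edge-disjoint connections from `v` to two distinct vertices of `T`.

PLAN. `menger_cap` for D, T: (1) first alternative; (2) impossible (`ClS O D ∩ T` nontrivial); (3) there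
is an edge separating D from T: `piv_of_sep`, `exists_max_piv`: the last pivotal pair (u,v), K. By `ClS_eq_union` and K ∩ T = ∅ the
vertices of T reachable from D are reachable from v in `off O K`; so `ClS (off O K) {v} ∩ T` is nontrivial; apply `menger_cap` in
`off O K` to D = {v}: alternative (1) is what we want ((a, a') = (v, v)); (2) impossible; (3) gives an edge f separating v from T in
`off O K`: `Piv.sep_lift` gives Kf with K ⊆ Kf, v ∈ Kf, f ≠ e, Kf ∩ T = ∅, `piv_of_sep` the pair (u',v') of f, maximality of (u,v): v' ∈ K ⊆ Kf, contradiction.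
-/

set_option autoImplicit false

namespace Pool.Agent.PB

variable {W : Type*}

theorem cap_dec {O : Set (Sym2 W)} {D T : Set W} (h : (ClS O D ∩ T).Nontrivial) :
    (∃ a ∈ D, ∃ a' ∈ D, ∃ t ∈ T, ∃ t' ∈ T, t ≠ t' ∧ DisjConn O ![(a, t), (a', t')]) ∨
    ∃ u v, Piv O D T u v ∧ ∃ t ∈ T, ∃ t' ∈ T, t ≠ t' ∧
      DisjConn (off O (ClS (del1 O s(u, v)) D)) ![(v, t), (v, t')] := by
  rcases menger_cap h.nonempty with h1 | ⟨t, ht⟩ | ⟨z, z', hz, -, -, hd⟩
  · exact Or.inl h1
  · rw [ht] at h
    exact absurd h Set.not_nontrivial_singleton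
  · right
    obtain ⟨u0, v0, -, hp0⟩ := piv_of_sep h.nonempty hz hd
    obtain ⟨u, v, hp, hmax⟩ := exists_max_piv hp0
    refine ⟨u, v, hp, ?_⟩
    have hp' := hp
    obtain ⟨he, hu, hv, hdis, t0, ht0, hvt⟩ := hp
    set K := ClS (del1 O s(u, v)) D with hK
    have hsub : ClS O D ∩ T ⊆ ClS (off O K) {v} ∩ T := by
      rintro x ⟨hx, hxT⟩
      rw [ClS_eq_union he hu hv] at hx
      rcases hx with hx | hx
      · exact absurd hxT (Set.disjoint_left.1 hdis hx)
      · exact ⟨⟨v, Set.mem_singleton v, hx⟩, hxT⟩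
    have hnt : (ClS (off O K) {v} ∩ T).Nontrivial := h.mono hsub
    rcases menger_cap hnt.nonempty with h2 | ⟨t, ht⟩ | ⟨w, w', hw, -, -, hd2⟩
    · obtain ⟨a, ha, a', ha', t, ht, t', ht', hne, hc⟩ := h2
      rw [Set.mem_singleton_iff] at ha ha'
      subst ha
      subst ha'
      exact ⟨t, ht, t', ht', hne, hc⟩
    · rw [ht] at hnt
      exact absurd hnt Set.not_nontrivial_singleton
    · exfalso
      have hsep : Sep (off O K) s(w, w') v T := sep_iff.2 ⟨hw, hd2⟩
      obtain ⟨hfO, hfe, hfd, hKf, hvf⟩ := hp'.sep_lift hsep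
      obtain ⟨u', v', hf, hp2⟩ := piv_of_sep h.nonempty hfO hfd
      rcases hmax u' v' hp2 with ⟨rfl, rfl⟩ | ⟨hle, hv'⟩
      · exact hfe hf
      · have h3 := hp2.2.2.1
        rw [← hf] at h3
        exact h3 (hKf hv')

end Pool.Agent.PB
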