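import Pool.Agent.PB.G.MengerT

/-!
# PB-G-TwoTg (section 2.2): two targets

`two_targets`: `y → T1`, `y → T2` and no single edge separates `y` from `T1 ∪ T2` ⇒ edge-disjoint
connections `y..T1` and `y..T2`. `not_sep_of_twoT`: the converse for separation.

PLAN of `two_targets`. `menger_first` with D = {y}, T = T1 ∪ T2 (the third alternative gives
`Sep O s(z,z') y (T1 ∪ T2)`, `sep_iff`): `Two O {y} (T1 ∪ T2)`, so disjoint `Q1, Q2 ⊆ O` and `t, t'` in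
`T1 ∪ T2` with `Rch Q1 y t`, `Rch Q2 y t'`. If one of them is in T1 and the other in T2: done
(`twoT_iff`). If both are in T1 (the case both in T2 is symmetric): put `Ui = ClS Qi {y}`,
`Ci = {f ∈ Qi | ∀ z ∈ f, z ∈ Ui}` (`rch_cut`), `U = U1 ∪ U2`; y → t2 ∈ T2 in O; `rch_last_visit`: r ∈ U with
`Rch Off r t2`, `Off = {f ∈ O | ¬ ∀ z ∈ f, z ∈ U}` disjoint from C1, C2. If r ∈ U1: `C1 ∪ Off` connects
y → r → t2 and C2 connects y → t' ∈ T1; if r ∈ U2: `C2 ∪ Off` connects y to t2 and C1 connects y → t ∈ T1.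
`not_sep_of_twoT`: if e were separating, e is in at most one of the disjoint sets S1, S2; the other
one is contained in `del1 O e` and connects y to T1 or T2.
-/

set_option autoImplicit false

namespace Pool.Agent.PB

variable {W : Type*}

private theorem tt_disj {O Q1 Q2 : Set (Sym2 W)} {U1 U2 : Set W} (hd : Disjoint Q1 Q2) :
    Disjoint {f ∈ Q2 | ∀ z ∈ f, z ∈ U2}
      ({f ∈ Q1 | ∀ z ∈ f, z ∈ U1} ∪ {f ∈ O | ¬ ∀ z ∈ f, z ∈ U1 ∪ U2}) := by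
  rw [Set.disjoint_left]
  rintro f ⟨hf2, hfU⟩ (⟨hf1, _⟩ | ⟨_, hf⟩)
  · exact Set.disjoint_left.1 hd hf1 hf2
  · exact hf fun z hz => Or.inr (hfU z hz)

private theorem tt_aux {O Q1 Q2 : Set (Sym2 W)} {y r t' t2 : W} {T1 T2 : Set W}
    (hQ1 : Q1 ⊆ O) (hQ2 : Q2 ⊆ O) (hd : Disjoint Q1 Q2)
    (ht' : t' ∈ T1) (h' : Rch Q2 y t') (hr1 : Rch Q1 y r)
    (hr2 : Rch {f ∈ O | ¬ ∀ z ∈ f, z ∈ ClS Q1 {y} ∪ ClS Q2 {y}} r t2) (ht2 : t2 ∈ T2) :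
    TwoT O y T1 T2 := by
  rw [twoT_iff]
  refine ⟨{f ∈ Q2 | ∀ z ∈ f, z ∈ ClS Q2 {y}},
    {f ∈ Q1 | ∀ z ∈ f, z ∈ ClS Q1 {y}} ∪ {f ∈ O | ¬ ∀ z ∈ f, z ∈ ClS Q1 {y} ∪ ClS Q2 {y}},
    fun f hf => hQ2 hf.1, ?_, tt_disj hd, ⟨t', ht', rch_cut (Set.mem_singleton y) h'⟩,
    ⟨t2, ht2, ?_⟩⟩
  · rintro f (hf | hf)
    · exact hQ1 hf.1
    · exact hf.1
  · exact ((rch_cut (Set.mem_singleton y) hr1).mono Set.subset_union_left).trans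
      (hr2.mono Set.subset_union_right)

private theorem tt_same {O Q1 Q2 : Set (Sym2 W)} {y t t' t2 : W} {T1 T2 : Set W}
    (hQ1 : Q1 ⊆ O) (hQ2 : Q2 ⊆ O) (hd : Disjoint Q1 Q2) (ht : t ∈ T1) (h : Rch Q1 y t)
    (ht' : t' ∈ T1) (h' : Rch Q2 y t') (ht2 : t2 ∈ T2) (h2 : Rch O y t2) : TwoT O y T1 T2 := by
  have hy : y ∈ ClS Q1 {y} ∪ ClS Q2 {y} := Or.inl (subset_ClS _ _ (Set.mem_singleton y))
  obtain ⟨r, hr, hrt⟩ := rch_last_visit hy h2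
  rcases hr with hr | hr
  · rw [ClS_singleton] at hr
    exact tt_aux hQ1 hQ2 hd ht' h' hr hrt ht2
  · rw [ClS_singleton] at hr
    rw [Set.union_comm] at hrt
    exact tt_aux hQ2 hQ1 hd.symm ht h hr hrt ht2

private theorem tt_symm {O : Set (Sym2 W)} {y : W} {T1 T2 : Set W} (h : TwoT O y T2 T1) :
    TwoT O y T1 T2 := by
  obtain ⟨S1, S2, h1, h2, h3, h4, h5⟩ := twoT_iff.1 h
  exact twoT_iff.2 ⟨S2, S1, h2, h1, h3.symm, h5, h4⟩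

theorem two_targets {O : Set (Sym2 W)} {y : W} {T1 T2 : Set W} (h1 : RchT O y T1)
    (h2 : RchT O y T2) (hs : ∀ e, ¬ Sep O e y (T1 ∪ T2)) : TwoT O y T1 T2 := by
  obtain ⟨t1, ht1, hr1⟩ := h1
  obtain ⟨t2, ht2, hr2⟩ := h2
  have hne : (ClS O {y} ∩ (T1 ∪ T2)).Nonempty :=
    ⟨t1, ⟨y, Set.mem_singleton y, hr1⟩, Or.inl ht1⟩
  rcases menger_first hne with h | ⟨z, z', hz, -, -, hd⟩
  · obtain ⟨Q1, Q2, hQ1, hQ2, hd, ⟨t, ht, htT⟩, ⟨t', ht', ht'T⟩⟩ := two_iff.1 h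
    rw [ClS_singleton] at ht ht'
    rcases htT with htT | htT <;> rcases ht'T with ht'T | ht'T
    · exact tt_same hQ1 hQ2 hd htT ht ht'T ht' ht2 hr2
    · exact twoT_iff.2 ⟨Q1, Q2, hQ1, hQ2, hd, ⟨t, htT, ht⟩, ⟨t', ht'T, ht'⟩⟩
    · exact twoT_iff.2 ⟨Q2, Q1, hQ2, hQ1, hd.symm, ⟨t', ht'T, ht'⟩, ⟨t, htT, ht⟩⟩
    · exact tt_symm (tt_same hQ1 hQ2 hd htT ht ht'T ht' ht1 hr1)
  · exact absurd (sep_iff.2 ⟨hz, hd⟩) (hs s(z, z'))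

theorem not_sep_of_twoT {O : Set (Sym2 W)} {y : W} {T1 T2 : Set W} (h : TwoT O y T1 T2)
    (e : Sym2 W) : ¬ Sep O e y (T1 ∪ T2) := by
  rintro ⟨-, hn⟩
  obtain ⟨S1, S2, h1, h2, h3, ⟨t1, ht1, hr1⟩, ⟨t2, ht2, hr2⟩⟩ := twoT_iff.1 h
  by_cases he : e ∈ S1
  · apply hn
    have hsub : S2 ⊆ del1 O e := by
      intro f hf
      refine ⟨h2 hf, ?_⟩
      rintro rfl
      exact Set.disjoint_left.1 h3 he hf
    exact ⟨t2, Or.inr ht2, hr2.mono hsub⟩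
  · apply hn
    have hsub : S1 ⊆ del1 O e := by
      intro f hf
      refine ⟨h1 hf, ?_⟩
      rintro rfl
      exact he hf
    exact ⟨t1, Or.inl ht1, hr1.mono hsub⟩

end Pool.Agent.PB
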