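import Pool.Agent.PB.G.KernB
import Pool.Agent.PB.G.KernC
import Pool.Agent.PB.G.TwoTg

/-!
# PB-G-First (section 7.1): the first edge separating `y` from `T`

`FirstSep O y T u v` is `KD O y T (Del.ofSet {y}) u v` (`DConn_iff_EPrime`).

PLANS. `firstSep_iff_KD`: unfold, `DConn_iff_EPrime`.
`first_sep`: `kernel_exists (Del.ofSet {y})`: (i) impossible (RchA off {y} from y: `rchA_ofSet`, y ∈ {y}); (ii) FirstSep; (iii)
`CaseIII.two` with A.verts ∪ {y} = {y}: `Two O {y} T`, which is `TwoT O y T T`.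
`FirstSep.unique`, `.rchT`: `KD.unique`, `KD.rchT`. `FirstSep.not_twoT`: e separates y from T: `not_sep_of_twoT` (T ∪ T = T).
`FirstSep.twoT_iff` : `TwoT O y T1 T2 ↔ (Cl (del1 O e) y ∩ T2).Nonempty`, K = Cl (del1 O e) y:
 ⇒: disjoint S1, S2 ⊆ O with y → T1 in S1, y → T2 in S2; since K ∩ T1 = ∅, e ∈ S1 (else T1 reached in del1 O e); so S2 ⊆ del1 O e: y → T2
 in del1 O e. ⇐: in O' = del1 O e: y → u and y → T2 and no single edge separates y from {u} ∪ T2 (it would separate y from u, DConn);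
 `two_targets` in O' with targets {u}, T2: disjoint S1, S2 ⊆ del1 O e, y → u in S1, y → t2 in S2 (cut both down to edges inside K:
 `Rch.inside`); then `S1 ∪ {e} ∪ off O K` connects y → u → v → T1 and is disjoint from S2 (edges of S2 are ≠ e and have their end points in K).
-/

set_option autoImplicit false

namespace Pool.Agent.PB

variable {W : Type*}

theorem firstSep_iff_KD {O : Set (Sym2 W)} {y : W} {T : Set W} {u v : W} :
    FirstSep O y T u v ↔ KD O y T (Del.ofSet {y}) u v := by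
  unfold FirstSep KD
  rw [DConn_iff_EPrime]

theorem first_sep {O : Set (Sym2 W)} {y : W} {T : Set W} (h : RchT O y T) :
    TwoT O y T T ∨ ∃ u v, FirstSep O y T u v := by
  rcases kernel_exists (Del.ofSet {y}) h with ⟨t, -, hy, -⟩ | ⟨u, v, hk⟩ | h3
  · exact absurd (Set.mem_singleton y) hy
  · exact Or.inr ⟨u, v, firstSep_iff_KD.2 hk⟩
  · left
    obtain ⟨a, ha, a', ha', t, ht, t', ht', hc⟩ := CaseIII.two h h3
    rw [Del.ofSet_verts, Set.union_self, Set.mem_singleton_iff] at ha ha'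
    subst ha
    subst ha'
    exact ⟨t, ht, t', ht', hc⟩

theorem FirstSep.unique {O : Set (Sym2 W)} {y : W} {T : Set W} {u v u' v' : W}
    (h : FirstSep O y T u v) (h' : FirstSep O y T u' v') : u = u' ∧ v = v' :=
  KD.unique (firstSep_iff_KD.1 h) (firstSep_iff_KD.1 h')

theorem FirstSep.rchT {O : Set (Sym2 W)} {y : W} {T : Set W} {u v : W}
    (h : FirstSep O y T u v) : RchT O y T := KD.rchT (firstSep_iff_KD.1 h)

theorem FirstSep.not_twoT {O : Set (Sym2 W)} {y : W} {T : Set W} {u v : W}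
    (h : FirstSep O y T u v) : ¬ TwoT O y T T := by
  intro hT
  refine not_sep_of_twoT hT s(u, v) ?_
  rw [Set.union_self, sep_iff, ClS_singleton]
  exact ⟨h.1, h.2.2.2.1⟩

theorem FirstSep.twoT_iff {O : Set (Sym2 W)} {y : W} {T1 T2 : Set W} {u v : W}
    (h : FirstSep O y T1 u v) :
    TwoT O y T1 T2 ↔ (Cl (del1 O s(u, v)) y ∩ T2).Nonempty := by
  obtain ⟨he, hdc, hv, hdis, hR⟩ := h
  constructor
  · intro hT
    obtain ⟨S1, S2, h1, h2, h3, ⟨t1, ht1, hr1⟩, ⟨t2, ht2, hr2⟩⟩ := PB.twoT_iff.1 hT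
    have heS : s(u, v) ∈ S1 := by
      by_contra hn
      have hsub : S1 ⊆ del1 O s(u, v) := by
        intro f hf
        refine ⟨h1 hf, ?_⟩
        rintro rfl
        exact hn hf
      exact Set.disjoint_left.1 hdis (hr1.mono hsub) ht1
    have hsub : S2 ⊆ del1 O s(u, v) := by
      intro f hf
      refine ⟨h2 hf, ?_⟩
      rintro rfl
      exact Set.disjoint_left.1 h3 heS hf
    exact ⟨t2, hr2.mono hsub, ht2⟩
  · rintro ⟨t2, ht2K, ht2⟩
    have hs : ∀ f, ¬ Sep (del1 O s(u, v)) f y ({u} ∪ T2) := by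
      rintro f ⟨hf, hn⟩
      refine hdc.2 f ⟨hf, ?_⟩
      rintro ⟨t, ht, hr⟩
      exact hn ⟨t, Or.inl ht, hr⟩
    obtain ⟨S1, S2, h1, h2, h3, ⟨x, hx, hr1⟩, ⟨t2', ht2', hr2⟩⟩ := PB.twoT_iff.1
      (two_targets (rchT_singleton.2 hdc.1) ⟨t2, ht2, ht2K⟩ hs)
    rw [Set.mem_singleton_iff] at hx
    subst hx
    obtain ⟨-, t1, ht1, hr⟩ := rchA_ofSet.1 hR
    rw [PB.twoT_iff]
    refine ⟨insert s(x, v) (S1 ∪ off O (Cl (del1 O s(x, v)) y)),
      {f ∈ S2 | ∀ z ∈ f, z ∈ Cl S2 y}, ?_, fun f hf => (h2 hf.1).1, ?_,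
      ⟨t1, ht1, ?_⟩, ⟨t2', ht2', hr2.inside⟩⟩
    · rintro f (rfl | hf | hf)
      · exact he
      · exact (h1 hf).1
      · exact off_subset _ _ hf
    · rw [Set.disjoint_left]
      rintro f (rfl | hf | hf) ⟨hf2, hfz⟩
      · exact (h2 hf2).2 rfl
      · exact Set.disjoint_left.1 h3 hf hf2
      · induction f using Sym2.ind with
        | _ a b =>
          exact (mem_off.1 hf).2 a (Sym2.mem_mk_left a b)
            (Cl_mono h2 y (hfz a (Sym2.mem_mk_left a b)))
    · have s1 : S1 ⊆ insert s(x, v) (S1 ∪ off O (Cl (del1 O s(x, v)) y)) :=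
        Set.subset_union_left.trans (Set.subset_insert _ _)
      have s2 : off O (Cl (del1 O s(x, v)) y) ⊆
          insert s(x, v) (S1 ∪ off O (Cl (del1 O s(x, v)) y)) :=
        Set.subset_union_right.trans (Set.subset_insert _ _)
      exact ((hr1.mono s1).tail (Set.mem_insert _ _)).trans (hr.mono s2)

end Pool.Agent.PB
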