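import Pool.Agent.PB.G.Order

/-!
# PB-G-KernA (section 2.5): existence in the kernel decomposition

`kernel_exists`: if `y → T` in `O` then (i) `y → T` off `A`, or (ii) `∃ u v, KD O y T A u v`, or (iii)
`CaseIII O y T A`. `EPrime_del1_iff`: if `u ∈ K = C(O\e,y)`, `v ∉ K`, `e = {u,v}` then `E'(O\e;y,u;A)` iff
`E'(O;y,u;A)`.

AUXILIARY FACTS, for e = s(u,v), K = Cl (del1 O e) y, u ∈ K, v ∉ K (prove them as lemmas first):
(A1) `x ∈ ClA A O y → x ∈ K → x ∈ ClA A (del1 O e) y`: induct along the connection y → x in A.rem O with the property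
 `z ∈ ClA A (del1 O e) y ∨ (z ∉ K ∧ u ∈ ClA A (del1 O e) y)`: a step by the edge e from u goes to v ∉ K; a step from outside K into K must be
 by the edge e (K is closed under del1 O e), i.e. it enters at u, which is in ClA A (del1 O e) y.
(A2) for w with Rch (del1 O e) y w [w ∈ K] and f ∈ O: f separates y from w in O iff f ≠ e and f separates y from w in del1 O e.
 (⇒: f ≠ e since w is reachable in del1 O e; del1 (del1 O e) f ⊆ del1 O f. ⇐: if y → w in del1 O f, then also in del1 (del1 O e) f: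
 same induction as A1: leaving K is only possible by e from u to v, coming back only through u, with the property
 `Rch (del1 (del1 O e) f) y z ∨ (z ∉ K ∧ Rch (del1 (del1 O e) f) y u)`.) The same for the near end point: for u' ∈ K: Rch (del1 O f) y u' ↔
 Rch (del1 (del1 O e) f) y u'.
`EPrime_del1_iff`: from A1, A2 (if s(u,v) ∉ O then del1 O e = O and there is nothing to prove); near end points of f in O that
 are not in K: if f separates y from u in O then f ∈ del1 O e and both end points of f are in K or the near one is (Rch (del1 O f) y u' with u' ∈ f: if u' ∉ K then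
 the connection y → u' in del1 O f passes through u (leaves K by e), so y → u in del1 O f, contradiction with f separating).
`kernel_exists`: suppose not (i), not (iii). Then there are e0 with `Sep O e0 y T` and u0 ∈ e0, `Rch (del1 O e0) y u0`, u0 ∉ ClA A O y.
 Among the pairs (u,v) with `Piv O {y} T u v` and `u ∉ ClA A O y` (finite set by `finite_piv`, nonempty: `piv_of_sep` for e0 gives (u,v)
 with e0 = s(u,v), and u is the only end point of e0 in K0, so u = u0) take one with K minimal for ⊆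
 (`Set.Finite.exists_minimal..` for the image, or `Finset.exists_min_image` is not available for ⊆: use
 `Set.Finite.exists_minimalFor` / `Finite.exists_minimalFor`). Claim EPrime (del1 O e) y u A: u reachable in del1 O e; u ∉ ClA A (del1 O e) y
 (ClA_mono); if f ∈ del1 O e separates y from u in del1 O e with near end point u' (Rch (del1 (del1 O e) f) y u'): f separates y
 from T in O (if y → t in del1 O f: since t ∉ K the connection leaves K by e from u, so y → u in del1 O f by the first crossing, in fact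
 inside K, `Rch.exists_first_cross`, whose edges are ≠ e, so in del1 (del1 O e) f: contradiction); so `piv_of_sep` gives
 (u1,v1) pivotal with f = s(u1,v1), u' = u1 (u' ∈ Kf, v1 ∉ Kf); by `Piv.order`: either K ⊆ Kf and v ∈ Kf, then u ∈ Kf and
 (again: inside K) y → u in del1 (del1 O e) f, contradiction; or Kf ⊆ K, v1 ∈ K: Kf ≠ K (v1 ∉ Kf), so by minimality u1 ∈ ClA A O y; by
 (A1) u1 ∈ ClA A (del1 O e) y (u1 ∈ Kf ⊆ K). The remaining parts of KD are those of Piv
 (`rchA_ofSet`, `ClS_singleton`).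
-/

set_option autoImplicit false

namespace Pool.Agent.PB

variable {W : Type*}

/-- the invariant along connections in a subset `O'` of `O` -/
private theorem inv_del1 {O O' : Set (Sym2 W)} {y u v x : W} (hO : O' ⊆ O)
    (hu : u ∈ Cl (del1 O s(u, v)) y) (hv : v ∉ Cl (del1 O s(u, v)) y) (h : Rch O' y x) :
    (x ∈ Cl (del1 O s(u, v)) y ∧ Rch (del1 O' s(u, v)) y x) ∨
      (x ∉ Cl (del1 O s(u, v)) y ∧ Rch (del1 O' s(u, v)) y u) := by
  refine Rch.induct (P := fun z => (z ∈ Cl (del1 O s(u, v)) y ∧ Rch (del1 O' s(u, v)) y z) ∨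
      (z ∉ Cl (del1 O s(u, v)) y ∧ Rch (del1 O' s(u, v)) y u))
    (Or.inl ⟨self_mem_Cl _ _, Rch.refl _ _⟩) ?_ h
  rintro a b _ hab (⟨haK, hr⟩ | ⟨haK, hr⟩)
  · by_cases hE : s(a, b) = s(u, v)
    · rcases Sym2.eq_iff.1 hE with ⟨rfl, rfl⟩ | ⟨rfl, rfl⟩
      · exact Or.inr ⟨hv, hr⟩
      · exact absurd haK hv
    · exact Or.inl ⟨Cl_closed haK ⟨hO hab, hE⟩, hr.tail ⟨hab, hE⟩⟩
  · by_cases hbK : b ∈ Cl (del1 O s(u, v)) y
    · by_cases hE : s(a, b) = s(u, v)
      · rcases Sym2.eq_iff.1 hE with ⟨rfl, rfl⟩ | ⟨rfl, rfl⟩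
        · exact absurd hu haK
        · exact Or.inl ⟨hbK, hr⟩
      · refine absurd (Cl_closed hbK ?_) haK
        rw [show s(b, a) = s(a, b) from Sym2.eq_swap]
        exact ⟨hO hab, hE⟩
    · exact Or.inr ⟨hbK, hr⟩

/-- (A1) -/
theorem ClA_del1 {O : Set (Sym2 W)} {y u v x : W} {A : Del W}
    (hu : u ∈ Cl (del1 O s(u, v)) y) (hv : v ∉ Cl (del1 O s(u, v)) y)
    (hx : x ∈ ClA A O y) (hK : x ∈ Cl (del1 O s(u, v)) y) : x ∈ ClA A (del1 O s(u, v)) y := by
  refine ⟨hx.1, ?_⟩
  rcases inv_del1 (A.rem_subset O) hu hv hx.2 with ⟨_, h⟩ | ⟨h, _⟩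
  · refine h.mono ?_
    intro f hf
    exact ⟨⟨hf.1.1, hf.2⟩, hf.1.2⟩
  · exact absurd hK h

/-- inside `K` nothing changes when `e` is removed, even after removing another edge `f` -/
theorem rch_del1_del1 {O : Set (Sym2 W)} {y u v x : W} {f : Sym2 W}
    (hu : u ∈ Cl (del1 O s(u, v)) y) (hv : v ∉ Cl (del1 O s(u, v)) y)
    (hK : x ∈ Cl (del1 O s(u, v)) y) :
    Rch (del1 O f) y x ↔ Rch (del1 (del1 O s(u, v)) f) y x := by
  constructor
  · intro h
    rcases inv_del1 (del1_subset O f) hu hv h with ⟨_, h⟩ | ⟨h, _⟩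
    · refine h.mono ?_
      intro g hg
      exact ⟨⟨hg.1.1, hg.2⟩, hg.1.2⟩
    · exact absurd hK h
  · intro h
    exact h.mono (del1_mono (del1_subset _ _) _)

/-- leaving `K` is only possible through `u` -/
private theorem rch_near {O : Set (Sym2 W)} {y u v x : W} {f : Sym2 W}
    (hu : u ∈ Cl (del1 O s(u, v)) y) (hv : v ∉ Cl (del1 O s(u, v)) y)
    (hK : x ∉ Cl (del1 O s(u, v)) y) (h : Rch (del1 O f) y x) :
    Rch (del1 (del1 O s(u, v)) f) y u := by
  rcases inv_del1 (del1_subset O f) hu hv h with ⟨h1, _⟩ | ⟨_, h⟩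
  · exact absurd h1 hK
  · refine h.mono ?_
    intro g hg
    exact ⟨⟨hg.1.1, hg.2⟩, hg.1.2⟩

theorem EPrime_del1_iff {O : Set (Sym2 W)} {y u v : W} {A : Del W}
    (hu : u ∈ Cl (del1 O s(u, v)) y) (hv : v ∉ Cl (del1 O s(u, v)) y) :
    EPrime (del1 O s(u, v)) y u A ↔ EPrime O y u A := by
  constructor
  · rintro ⟨h1, h2, h3⟩
    refine ⟨h1.mono (del1_subset _ _), fun h => h2 (ClA_del1 hu hv h hu), ?_⟩
    intro f hf u' hu' hr
    have hnr : ¬ Rch (del1 O f) y u := fun h => hf.2 (rchT_singleton.2 h)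
    have hne : f ≠ s(u, v) := by
      rintro rfl
      exact hnr hu
    have hK : u' ∈ Cl (del1 O s(u, v)) y := by
      by_contra hK
      exact hnr ((rch_del1_del1 hu hv hu).2 (rch_near hu hv hK hr))
    refine ClA_mono A (del1_subset _ _) y (h3 f ⟨⟨hf.1, hne⟩, ?_⟩ u' hu'
      ((rch_del1_del1 hu hv hK).1 hr))
    intro h
    exact hnr ((rch_del1_del1 hu hv hu).2 (rchT_singleton.1 h))
  · rintro ⟨h1, h2, h3⟩
    refine ⟨hu, fun h => h2 (ClA_mono A (del1_subset _ _) y h), ?_⟩
    intro f hf u' hu' hr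
    have hK : u' ∈ Cl (del1 O s(u, v)) y := hr.mono (del1_subset _ _)
    refine ClA_del1 hu hv (h3 f ⟨hf.1.1, ?_⟩ u' hu' ((rch_del1_del1 hu hv hK).2 hr)) hK
    intro h
    exact hf.2 (rchT_singleton.2 ((rch_del1_del1 hu hv hu).1 (rchT_singleton.1 h)))

theorem kernel_exists {O : Set (Sym2 W)} {y : W} {T : Set W} (A : Del W) (h : RchT O y T) :
    RchA A O y T ∨ (∃ u v, KD O y T A u v) ∨ CaseIII O y T A := by
  by_cases h1 : RchA A O y T
  · exact Or.inl h1
  by_cases h3 : CaseIII O y T A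
  · exact Or.inr (Or.inr h3)
  right; left
  have h4 : ∃ e0, Sep O e0 y T ∧ ∃ u0 ∈ e0, Rch (del1 O e0) y u0 ∧ u0 ∉ ClA A O y := by
    by_contra hcon
    push Not at hcon
    exact h3 ⟨h1, fun e he u hu hr => hcon e he u hu hr⟩
  obtain ⟨e0, hs0, u0, hu0, hr0, hA0⟩ := h4
  have hne := rchT_iff.1 h
  -- the pivotal pairs whose near end point is not in `ClA A O y`
  have hfin : {q : W × W | Piv O {y} T q.1 q.2 ∧ q.1 ∉ ClA A O y}.Finite :=
    (finite_piv O {y} T).subset fun q hq => hq.1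
  have hnonempty : {q : W × W | Piv O {y} T q.1 q.2 ∧ q.1 ∉ ClA A O y}.Nonempty := by
    obtain ⟨he0, hd0⟩ := sep_iff.1 hs0
    obtain ⟨u, v, rfl, hp⟩ := piv_of_sep hne he0 hd0
    refine ⟨(u, v), hp, ?_⟩
    have : u0 = u := by
      rcases Sym2.mem_iff.1 hu0 with h | h
      · exact h
      · exfalso
        subst h
        exact hp.2.2.1 (by rw [ClS_singleton]; exact hr0)
    exact this ▸ hA0
  obtain ⟨⟨u, v⟩, ⟨hp, huA⟩, hmin⟩ := hfin.exists_minimalFor
    (fun q : W × W => ClS (del1 O s(q.1, q.2)) {y}) _ hnonempty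
  simp only at hp huA hmin
  have hp' := hp
  obtain ⟨heO, huK, hvK, hdis, t, ht, hvt⟩ := hp
  rw [ClS_singleton] at huK hvK hdis hvt
  refine ⟨u, v, heO, ⟨huK, fun h => huA (ClA_mono A (del1_subset _ _) y h), ?_⟩, hvK, hdis,
    rchA_ofSet.2 ⟨hvK, t, ht, hvt⟩⟩
  intro f hf u' hu' hr
  have hnu : ¬ Rch (del1 (del1 O s(u, v)) f) y u := fun h => hf.2 (rchT_singleton.2 h)
  have hfO : f ∈ O := hf.1.1
  have hfe : f ≠ s(u, v) := hf.1.2
  have hsep : Disjoint (ClS (del1 O f) {y}) T := by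
    rw [ClS_singleton, Set.disjoint_left]
    intro t' ht' htT
    have htK : t' ∉ Cl (del1 O s(u, v)) y := fun h => Set.disjoint_left.1 hdis h htT
    exact hnu (rch_near huK hvK htK ht')
  obtain ⟨u1, v1, rfl, hp1⟩ := piv_of_sep hne hfO hsep
  have hu1 : u' = u1 := by
    rcases Sym2.mem_iff.1 hu' with h | h
    · exact h
    · exfalso
      subst h
      exact hp1.2.2.1 (by rw [ClS_singleton]; exact hr.mono (del1_mono (del1_subset _ _) _))
  subst hu1
  rcases hp'.order hp1 hfe.symm with ⟨ha, _⟩ | ⟨ha, hb⟩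
  · exfalso
    rw [ClS_singleton, ClS_singleton] at ha
    exact hnu ((rch_del1_del1 huK hvK huK).1 (ha huK))
  · have hcl : u' ∈ ClA A O y := by
      by_contra hcon
      have := hmin (j := (u', v1)) ⟨hp1, hcon⟩ ha
      exact hp1.2.2.1 (this hb)
    have hK : u' ∈ Cl (del1 O s(u, v)) y := by
      have := ha hp1.2.1
      rwa [ClS_singleton] at this
    exact ClA_del1 huK hvK hcl hK

end Pool.Agent.PB
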