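import Pool.Agent.PB.G.Base

/-!
# PB-G-Menger (section 2.1, core): one target vertex, a set `D` of starting vertices

`menger_core`: if some vertex of `D` is connected to `x` in `O`, then EITHER there are two
edge-disjoint connections from `D` to `x`, OR there is a directed edge `(z,z')` of `O`, `e = {z,z'}`,
with two edge-disjoint connections from `D` to `z` in `O\e`, and `z'` and `x` not reachable from `D`
in `O\e`.

PLAN (no paths, helper93). Let `B v := Two O D {v}` and `Wt := {v | B v}`; `D ⊆ Wt` (empty edge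
sets). Assume `¬ B x`.
(1) Last edge leaving `Wt`: by `Rch.induct` (property of y: `y ∈ Wt ∨ ∃ z ∈ Wt, ∃ z' ∉ Wt,
s(z,z') ∈ O ∧ Rch {f ∈ O | ∀ w ∈ f, w ∉ Wt} z' y`; if the induction vertex a is in Wt and the next one b
is not, take z = a, z' = b; if both are outside extend; if b ∈ Wt: left alternative) one gets `z ∈ Wt`,
`z' ∉ Wt`, `s(z,z') ∈ O` and `Rch {f ∈ O | ∀ w ∈ f, w ∉ Wt} z' x`. Put `e = s(z,z')`.
(2) CLAIM `z' ∉ ClS (del1 O e) D`. Suppose it is. Take `Q1, Q2 ⊆ O` disjoint with `z` reachable from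
`D` in both (`two_iff`). Case (a): `z` is reachable from `D` in both `Q1 \ e` and `Q2 \ e`: replace, so
`e ∉ Q1 ∪ Q2`. Put `Ui = ClS Qi D`, `Ci = {f ∈ Qi | ∀ w ∈ f, w ∈ Ui}` (`rch_cut`: z still reachable from D in Ci),
`U = U1 ∪ U2` (contains D). `rch_last_visit` in `del1 O e`: `r ∈ U` and `Rch Off r z'`, where
`Off = {f ∈ del1 O e | ¬ ∀ w ∈ f, w ∈ U}`. `Off` is disjoint from `C1, C2` (edges of `Ci` have both end
points in `Ui ⊆ U`). If `r ∈ U1`: `C1 ∪ Off` connects D to z' (D → r in C1 by rch_cut, then Off), and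
`C2 ∪ {e}` connects D to z' (D → z in C2, then e); they are disjoint, so `B z'`: contradiction. If `r ∈ U2`
the same with the roles exchanged.
Case (b): z is not reachable from D in `Q1 \ e` (so e ∈ Q1, hence e ∉ Q2): by `Rch.del1_or` (from the
point of D that reaches z in Q1): z or z' is reachable from D in `Q1 \ e`; it is not z (note e = s(z,z')), so z' is;
and `Q2 ∪ {e}` connects D to z' through z; `Q1 \ e` and `Q2 ∪ {e}` are disjoint: `B z'`, contradiction. Symmetric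
case with Q2.
(3) `x ∉ ClS (del1 O e) D`: otherwise go back from x to z' by the edges of `{f ∈ O | ∀ w ∈ f, w ∉ Wt}`
(they are different from e as z ∈ Wt), so z' ∈ ClS (del1 O e) D, contradicting (2).
(4) `Two (del1 O e) D {z}`: from Q1, Q2 (connections D → z in Qi): in `Qi \ e` the vertex z is still
reachable from D (otherwise, `Rch.del1_or`, z' would be reachable from D in `Qi \ e ⊆ del1 O e`).
-/

set_option autoImplicit false

namespace Pool.Agent.PB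

variable {W : Type*}

private theorem reach_or {Q : Set (Sym2 W)} {D : Set W} {z z' : W} (h : z ∈ ClS Q D) :
    z ∈ ClS (del1 Q s(z, z')) D ∨ z' ∈ ClS (del1 Q s(z, z')) D := by
  obtain ⟨a, ha, hr⟩ := h
  rcases hr.del1_or (u := z) (v := z') with h1 | h1 | h1
  · exact Or.inl ⟨a, ha, h1⟩
  · exact Or.inl ⟨a, ha, h1⟩
  · exact Or.inr ⟨a, ha, h1⟩

private theorem two_mk {O S1 S2 : Set (Sym2 W)} {D : Set W} {x : W} (h1 : S1 ⊆ O) (h2 : S2 ⊆ O)
    (h3 : Disjoint S1 S2) (h4 : x ∈ ClS S1 D) (h5 : x ∈ ClS S2 D) : Two O D {x} :=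
  two_iff.2 ⟨S1, S2, h1, h2, h3, ⟨x, h4, rfl⟩, ⟨x, h5, rfl⟩⟩

private theorem two_dest {O : Set (Sym2 W)} {D : Set W} {x : W} (h : Two O D {x}) :
    ∃ S1 S2 : Set (Sym2 W), S1 ⊆ O ∧ S2 ⊆ O ∧ Disjoint S1 S2 ∧ x ∈ ClS S1 D ∧ x ∈ ClS S2 D := by
  obtain ⟨S1, S2, h1, h2, h3, ⟨y, hy, hyx⟩, ⟨y', hy', hyx'⟩⟩ := two_iff.1 h
  obtain rfl : y = x := hyx
  obtain rfl : y' = y := hyx'
  exact ⟨S1, S2, h1, h2, h3, hy, hy'⟩

/-- case (b): `z` is not reachable from `D` in `Q1 \ e` -/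
private theorem case_b {O Q1 Q2 : Set (Sym2 W)} {D : Set W} {z z' : W} (he : s(z, z') ∈ O)
    (h1 : Q1 ⊆ O) (h2 : Q2 ⊆ O) (h3 : Disjoint Q1 Q2) (hz2 : z ∈ ClS Q2 D)
    (hz' : z' ∈ ClS (del1 Q1 s(z, z')) D) : Two O D {z'} := by
  refine two_mk (S1 := del1 Q1 s(z, z')) (S2 := insert s(z, z') Q2)
    ((del1_subset _ _).trans h1) (Set.insert_subset he h2) ?_ hz' ?_
  · rw [Set.disjoint_left]
    rintro f hf (rfl | hf2)
    · exact hf.2 rfl
    · exact Set.disjoint_left.1 h3 hf.1 hf2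
  · exact ClS_tail (ClS_mono (Set.subset_insert _ _) D hz2) (Set.mem_insert _ _)

/-- case (a) -/
private theorem case_a {O Q1 Q2 : Set (Sym2 W)} {D : Set W} {z z' r : W} (he : s(z, z') ∈ O)
    (h1 : Q1 ⊆ O) (h2 : Q2 ⊆ O) (h3 : Disjoint Q1 Q2) (he1 : s(z, z') ∉ Q1)
    (hz2 : z ∈ ClS Q2 D) (hr1 : r ∈ ClS Q1 D)
    (hr : Rch {f ∈ del1 O s(z, z') | ¬ ∀ w ∈ f, w ∈ ClS Q1 D ∪ ClS Q2 D} r z') :
    Two O D {z'} := by
  obtain ⟨a1, ha1, hra1⟩ := hr1
  obtain ⟨a2, ha2, hra2⟩ := hz2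
  have c1 := rch_cut ha1 hra1
  have c2 := rch_cut ha2 hra2
  refine two_mk
    (S1 := {f ∈ Q1 | ∀ w ∈ f, w ∈ ClS Q1 D} ∪
      {f ∈ del1 O s(z, z') | ¬ ∀ w ∈ f, w ∈ ClS Q1 D ∪ ClS Q2 D})
    (S2 := insert s(z, z') {f ∈ Q2 | ∀ w ∈ f, w ∈ ClS Q2 D}) ?_ ?_ ?_ ?_ ?_
  · rintro f (hf | hf)
    · exact h1 hf.1
    · exact hf.1.1
  · rintro f (rfl | hf)
    · exact he
    · exact h2 hf.1
  · rw [Set.disjoint_left]
    rintro f (hf | hf) (rfl | hf2)
    · exact he1 hf.1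
    · exact Set.disjoint_left.1 h3 hf.1 hf2.1
    · exact hf.1.2 rfl
    · exact hf.2 fun w hw => Or.inr (hf2.2 w hw)
  · exact ⟨a1, ha1, (c1.mono Set.subset_union_left).trans (hr.mono Set.subset_union_right)⟩
  · exact ⟨a2, ha2, (c2.mono (Set.subset_insert _ _)).tail (Set.mem_insert _ _)⟩

theorem menger_core {O : Set (Sym2 W)} {D : Set W} {x : W} (hx : x ∈ ClS O D) :
    Two O D {x} ∨ ∃ z z', s(z, z') ∈ O ∧ Two (del1 O s(z, z')) D {z} ∧
      z' ∉ ClS (del1 O s(z, z')) D ∧ x ∉ ClS (del1 O s(z, z')) D := by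
  by_cases hB : Two O D {x}
  · exact Or.inl hB
  right
  obtain ⟨a0, ha0, hr0⟩ := hx
  have hD : ∀ a ∈ D, Two O D {a} := fun a ha =>
    two_mk (S1 := ∅) (S2 := ∅) (Set.empty_subset _) (Set.empty_subset _) (by simp)
      (subset_ClS _ _ ha) (subset_ClS _ _ ha)
  -- (1) the last edge leaving `Wt`
  have step1 : x ∈ {v | Two O D {v}} ∨ ∃ z ∈ {v | Two O D {v}}, ∃ z', z' ∉ {v | Two O D {v}} ∧
      s(z, z') ∈ O ∧ Rch (off O {v | Two O D {v}}) z' x := by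
    refine Rch.induct (P := fun y => y ∈ {v | Two O D {v}} ∨ ∃ z ∈ {v | Two O D {v}}, ∃ z',
      z' ∉ {v | Two O D {v}} ∧ s(z, z') ∈ O ∧ Rch (off O {v | Two O D {v}}) z' y)
      (Or.inl (hD a0 ha0)) ?_ hr0
    rintro a b _ hab (ha | ⟨z, hz, z', hz', hzz, hr⟩)
    · by_cases hb : b ∈ {v | Two O D {v}}
      · exact Or.inl hb
      · exact Or.inr ⟨a, ha, b, hb, hab, Rch.refl _ _⟩
    · by_cases hb : b ∈ {v | Two O D {v}}
      · exact Or.inl hb
      · have ha : a ∉ {v | Two O D {v}} :=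
          ClA_disjoint (A := Del.ofSet {v | Two O D {v}}) (O := O) (y := z') (x := a) ⟨hz', hr⟩
        exact Or.inr ⟨z, hz, z', hz', hzz, hr.tail (mk_mem_off.2 ⟨hab, ha, hb⟩)⟩
  rcases step1 with h | ⟨z, hz, z', hz', hzz, hr⟩
  · exact absurd h hB
  have hz2 : Two O D {z} := hz
  have hz'2 : ¬ Two O D {z'} := hz'
  obtain ⟨Q1, Q2, hQ1, hQ2, hdis, hzQ1, hzQ2⟩ := two_dest hz2
  -- (4) first half
  have hd1 : z ∈ ClS (del1 Q1 s(z, z')) D := by
    rcases reach_or (z' := z') hzQ1 with h | h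
    · exact h
    · exact absurd (case_b hzz hQ1 hQ2 hdis hzQ2 h) hz'2
  have hd2 : z ∈ ClS (del1 Q2 s(z, z')) D := by
    rcases reach_or (z' := z') hzQ2 with h | h
    · exact h
    · exact absurd (case_b hzz hQ2 hQ1 hdis.symm hzQ1 h) hz'2
  have hdd : Disjoint (del1 Q1 s(z, z')) (del1 Q2 s(z, z')) :=
    hdis.mono (del1_subset _ _) (del1_subset _ _)
  -- (2)
  have step2 : z' ∉ ClS (del1 O s(z, z')) D := by
    rintro ⟨a, ha, hra⟩
    have haU : a ∈ ClS (del1 Q1 s(z, z')) D ∪ ClS (del1 Q2 s(z, z')) D :=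
      Or.inl (subset_ClS _ _ ha)
    obtain ⟨r, hrU, hrr⟩ := rch_last_visit haU hra
    rcases hrU with h | h
    · exact hz'2 (case_a hzz ((del1_subset _ _).trans hQ1) ((del1_subset _ _).trans hQ2) hdd
        (fun h => h.2 rfl) hd2 h hrr)
    · refine hz'2 (case_a hzz ((del1_subset _ _).trans hQ2) ((del1_subset _ _).trans hQ1) hdd.symm
        (fun h => h.2 rfl) hd1 h (hrr.mono ?_))
      intro f hf
      refine ⟨hf.1, fun h => hf.2 fun w hw => (h w hw).symm⟩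
  refine ⟨z, z', hzz, ?_, step2, ?_⟩
  · exact two_mk (del1_mono hQ1 _) (del1_mono hQ2 _) hdd hd1 hd2
  · -- (3)
    intro hx'
    apply step2
    refine ClS_trans hx' (hr.symm.mono ?_)
    intro f hf
    refine ⟨(mem_off.1 hf).1, ?_⟩
    rintro rfl
    exact (mem_off.1 hf).2 z (Sym2.mem_mk_left z z') hz

end Pool.Agent.PB
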