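import Pool.Agent.PB.G.Menger

/-!
# PB-G-MengerT (section 2.1 for a target SET; version with distinct end points for 12.3)

`menger_cap`: `D → T` in `O`. Then (1) there are two edge-disjoint connections from `D` to two
DISTINCT vertices of `T`, or (2) exactly one vertex of `T` is reachable from `D`, or (3) there is a
directed edge `(z,z')` of `O`, `e = {z,z'}`, with two edge-disjoint connections from `D` to `z` in
`O\e`, and neither `z'` nor any vertex of `T` reachable from `D` in `O\e`.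
`menger_first`: the same with (1)+(2) replaced by `Two O D T`.

PLAN. Work on `Option W` with `O' = (Sym2.map some '' O) ∪ {s(some t, none) | t ∈ T}`,
`D' = some '' D`, target vertex `none`; apply `menger_core` (`none ∈ ClS O' D'`).
Facts (first prove them as lemmas; both by `Rch.induct` / `Rch.exists_first_cross` with
`K = Set.range some`): (F1) if `Q ⊆ O'`, and `Rch Q (some a) none`, then there is `t ∈ T` with
`s(some t, none) ∈ Q` and `Rch {f | Sym2.map some f ∈ Q} a t`, and `{f | Sym2.map some f ∈ Q} ⊆ O`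
(`Sym2.map.injective`). (F2) if `Q ⊆ O'` and `none` is not reachable from `some a` in `Q`, then
`Rch Q (some a) (some b) → Rch {f | Sym2.map some f ∈ Q} a b`; conversely
`Rch {f | Sym2.map some f ∈ Q} a b → Rch Q (some a) (some b)` always.
Case A, `Two O' D' {none}`: two disjoint edge sets Q1, Q2 (`two_iff`); by F1 end points t1, t2 with
`s(some t1, none) ∈ Q1`, `s(some t2, none) ∈ Q2`, so t1 ≠ t2 (disjoint): this is (1).
Case B, `(z,z')` with `none ∉ ClS (del1 O' s(z,z')) D'`: `z` is reachable (Two) so `z = some z0`.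
 If `z' = some z0'`: (3) (connections from D' in `del1 O' e` never meet none, so F2 applies; `T` is not
 reachable in `del1 O s(z0,z0')`, since then `none` would be reachable by the edge s(some t, none) ≠ e).
 If `z' = none`: then z0 ∈ T, and every t' ∈ T reachable from D in O is z0 (otherwise D' → some t' →
 none in `del1 O' e`; all edges of O survive in `del1 O' e`); z0 is reachable: (2).
`menger_first`: in case (2), `ClS O D ∩ T = {t}`, apply `menger_core` with x = t: `Two O D {t}` gives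
`Two O D T`; otherwise `ClS (del1 O e) D ∩ T ⊆ ClS O D ∩ T = {t}` and t is not in `ClS (del1 O e) D`.
-/

set_option autoImplicit false

namespace Pool.Agent.PB

variable {W : Type*}

private def upE (O : Set (Sym2 W)) (T : Set W) : Set (Sym2 (Option W)) :=
  (Sym2.map some '' O) ∪ {f | ∃ t ∈ T, f = s(some t, none)}

private def dnE (Q : Set (Sym2 (Option W))) : Set (Sym2 W) := {f | Sym2.map some f ∈ Q}

private theorem upE_some {O : Set (Sym2 W)} {T : Set W} {a b : W} :
    s(some a, some b) ∈ upE O T ↔ s(a, b) ∈ O := by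
  constructor
  · rintro (⟨g, hg, hge⟩ | ⟨t, _, h⟩)
    · have h2 : Sym2.map some g = Sym2.map some s(a, b) := hge
      have h3 : g = s(a, b) := Sym2.map.injective (Option.some_injective _) h2
      rw [← h3]
      exact hg
    · exfalso
      rcases Sym2.eq_iff.1 h with ⟨_, h2⟩ | ⟨h2, _⟩
      · exact Option.some_ne_none _ h2
      · exact Option.some_ne_none _ h2
  · intro h
    exact Or.inl ⟨_, h, rfl⟩

private theorem upE_none {O : Set (Sym2 W)} {T : Set W} {a : W} :
    s(some a, none) ∈ upE O T ↔ a ∈ T := by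
  constructor
  · rintro (⟨g, _, hge⟩ | ⟨t, ht, h⟩)
    · exfalso
      induction g using Sym2.ind with
      | _ c d =>
        have h2 : s(some c, some d) = s(some a, none) := hge
        rcases Sym2.eq_iff.1 h2 with ⟨_, h3⟩ | ⟨h3, _⟩
        · exact Option.some_ne_none _ h3
        · exact Option.some_ne_none _ h3
    · rcases Sym2.eq_iff.1 h with ⟨h2, _⟩ | ⟨h2, _⟩
      · cases h2
        exact ht
      · exact absurd h2 (Option.some_ne_none _)
  · intro h
    exact Or.inr ⟨a, h, rfl⟩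

private theorem dnE_subset {O : Set (Sym2 W)} {T : Set W} {Q : Set (Sym2 (Option W))}
    (hQ : Q ⊆ upE O T) : dnE Q ⊆ O := by
  intro f hf
  induction f using Sym2.ind with
  | _ a b => exact upE_some.1 (hQ hf)

private theorem rch_upE {Q : Set (Sym2 (Option W))} {a b : W} (h : Rch (dnE Q) a b) :
    Rch Q (some a) (some b) :=
  Rch.induct (P := fun z => Rch Q (some a) (some z)) (Rch.refl _ _)
    (fun _ _ _ hyz hy => hy.tail hyz) h

private theorem rch_dnE {Q : Set (Sym2 (Option W))} {a : W} {x : Option W}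
    (hn : ¬ Rch Q (some a) none) (h : Rch Q (some a) x) : ∃ b, x = some b ∧ Rch (dnE Q) a b := by
  refine Rch.induct (P := fun z => ∃ b, z = some b ∧ Rch (dnE Q) a b)
    ⟨a, rfl, Rch.refl _ _⟩ ?_ h
  rintro y z hy hyz ⟨b, rfl, hb⟩
  cases z with
  | none => exact absurd (hy.tail hyz) hn
  | some c => exact ⟨c, rfl, hb.tail hyz⟩

private theorem rch_none {O : Set (Sym2 W)} {T : Set W} {Q : Set (Sym2 (Option W))}
    (hQ : Q ⊆ upE O T) {a : W} (h : Rch Q (some a) none) :
    ∃ t ∈ T, s(some t, none) ∈ Q ∧ Rch (dnE Q) a t := by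
  obtain ⟨p, q, hp, hq, hpq, hr⟩ := h.exists_first_cross (Set.range some) ⟨a, rfl⟩
    (by rintro ⟨c, hc⟩; exact Option.some_ne_none _ hc)
  cases q with
  | some c => exact absurd ⟨c, rfl⟩ hq
  | none =>
    obtain ⟨t, rfl⟩ := hp
    have hno : ¬ Rch {e ∈ Q | ∀ z ∈ e, z ∈ Set.range some} (some a) none := by
      intro h2
      obtain ⟨c, hc⟩ := Rch.mem_of_closed (Set.range some) ⟨a, rfl⟩
        (fun p _ q hpq2 => hpq2.2 q (Sym2.mem_mk_right p q)) h2
      exact Option.some_ne_none _ hc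
    obtain ⟨b, hb, hrb⟩ := rch_dnE hno hr
    cases hb
    exact ⟨t, upE_none.1 (hQ hpq), hpq, hrb.mono (fun f hf => hf.1)⟩

theorem menger_cap {O : Set (Sym2 W)} {D T : Set W} (h : (ClS O D ∩ T).Nonempty) :
    (∃ a ∈ D, ∃ a' ∈ D, ∃ t ∈ T, ∃ t' ∈ T, t ≠ t' ∧ DisjConn O ![(a, t), (a', t')]) ∨
    (∃ t, ClS O D ∩ T = {t}) ∨
    ∃ z z', s(z, z') ∈ O ∧ Two (del1 O s(z, z')) D {z} ∧ z' ∉ ClS (del1 O s(z, z')) D ∧
      Disjoint (ClS (del1 O s(z, z')) D) T := by
  obtain ⟨x, ⟨a, ha, hax⟩, hxT⟩ := h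
  have hOup : O ⊆ dnE (upE O T) := fun f hf => Or.inl ⟨f, hf, rfl⟩
  have hnone : (none : Option W) ∈ ClS (upE O T) (some '' D) :=
    ⟨some a, ⟨a, ha, rfl⟩, (rch_upE (hax.mono hOup)).tail (upE_none.2 hxT)⟩
  rcases menger_core hnone with h2 | ⟨z, z', hzz, h2, hz', hn⟩
  · left
    obtain ⟨S1, S2, h1, h2, h3, ⟨y, ⟨_, ⟨b1, hb1, rfl⟩, hr1⟩, hy⟩, ⟨y', ⟨_, ⟨b2, hb2, rfl⟩, hr2⟩, hy'⟩⟩ :=
      two_iff.1 h2
    obtain rfl : y = none := hy
    obtain rfl : y' = none := hy'
    obtain ⟨t1, ht1, he1, hd1⟩ := rch_none h1 hr1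
    obtain ⟨t2, ht2, he2, hd2⟩ := rch_none h2 hr2
    refine ⟨b1, hb1, b2, hb2, t1, ht1, t2, ht2, ?_, disjConn_two.2
      ⟨dnE S1, dnE S2, dnE_subset h1, dnE_subset h2, ?_, hd1, hd2⟩⟩
    · rintro rfl
      exact Set.disjoint_left.1 h3 he1 he2
    · exact Set.disjoint_left.2 (fun f hf hf' => Set.disjoint_left.1 h3 hf hf')
  · right
    obtain ⟨S1, S2, h1, h2', h3, ⟨y, ⟨_, ⟨b1, hb1, rfl⟩, hr1⟩, hy⟩, ⟨y', ⟨_, ⟨b2, hb2, rfl⟩, hr2⟩, hy'⟩⟩ :=
      two_iff.1 h2
    obtain rfl : y = z := hy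
    obtain rfl : y' = y := hy'
    cases y' with
    | none => exact absurd ⟨some b1, ⟨b1, hb1, rfl⟩, hr1.mono h1⟩ hn
    | some z0 =>
      cases z' with
      | none =>
        left
        have hz0 : z0 ∈ T := upE_none.1 hzz
        have hkey : O ⊆ dnE (del1 (upE O T) s(some z0, none)) := by
          intro f hf
          refine ⟨Or.inl ⟨f, hf, rfl⟩, ?_⟩
          induction f using Sym2.ind with
          | _ c d =>
            intro h4
            have h5 : s(some c, some d) = s(some z0, none) := h4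
            rcases Sym2.eq_iff.1 h5 with ⟨_, h6⟩ | ⟨h6, _⟩
            · exact Option.some_ne_none _ h6
            · exact Option.some_ne_none _ h6
        have huniq : ∀ y ∈ ClS O D ∩ T, y = z0 := by
          rintro y ⟨⟨c, hc, hcr⟩, hyT⟩
          by_contra hne
          refine hn ⟨some c, ⟨c, hc, rfl⟩, (rch_upE (hcr.mono hkey)).tail ⟨upE_none.2 hyT, ?_⟩⟩
          intro h4
          have h5 : s(some y, none) = s(some z0, none) := h4
          rcases Sym2.eq_iff.1 h5 with ⟨h6, _⟩ | ⟨h6, _⟩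
          · exact hne (Option.some_injective _ h6)
          · exact Option.some_ne_none _ h6
        refine ⟨z0, Set.ext fun y => ⟨fun hy => huniq y hy, ?_⟩⟩
        intro hy
        obtain rfl : y = z0 := hy
        have hx : x = y := huniq x ⟨⟨a, ha, hax⟩, hxT⟩
        rw [← hx]
        exact ⟨⟨a, ha, hax⟩, hxT⟩
      | some z1 =>
        right
        have hdn1 : dnE (del1 (upE O T) s(some z0, some z1)) ⊆ del1 O s(z0, z1) := by
          intro f hf
          refine ⟨dnE_subset (Q := del1 (upE O T) s(some z0, some z1)) (del1_subset _ _) hf, ?_⟩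
          intro h4
          obtain rfl : f = s(z0, z1) := h4
          exact hf.2 rfl
        have hdn2 : del1 O s(z0, z1) ⊆ dnE (del1 (upE O T) s(some z0, some z1)) := by
          intro f hf
          refine ⟨Or.inl ⟨f, hf.1, rfl⟩, ?_⟩
          intro h4
          have h5 : Sym2.map some f = Sym2.map some s(z0, z1) := h4
          exact hf.2 (Sym2.map.injective (Option.some_injective _) h5)
        refine ⟨z0, z1, upE_some.1 hzz, ?_, ?_, ?_⟩
        · have hn1 : ¬ Rch S1 (some b1) none := fun h4 => hn ⟨some b1, ⟨b1, hb1, rfl⟩, h4.mono h1⟩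
          have hn2 : ¬ Rch S2 (some b2) none := fun h4 => hn ⟨some b2, ⟨b2, hb2, rfl⟩, h4.mono h2'⟩
          obtain ⟨c1, hc1, hr1'⟩ := rch_dnE hn1 hr1
          obtain ⟨c2, hc2, hr2'⟩ := rch_dnE hn2 hr2
          cases hc1
          cases hc2
          refine two_iff.2 ⟨dnE S1, dnE S2, fun f hf => hdn1 (h1 hf), fun f hf => hdn1 (h2' hf), ?_,
            ⟨z0, ⟨b1, hb1, hr1'⟩, rfl⟩, ⟨z0, ⟨b2, hb2, hr2'⟩, rfl⟩⟩
          exact Set.disjoint_left.2 (fun f hf hf' => Set.disjoint_left.1 h3 hf hf')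
        · rintro ⟨c, hc, hcr⟩
          exact hz' ⟨some c, ⟨c, hc, rfl⟩, rch_upE (hcr.mono hdn2)⟩
        · refine Set.disjoint_left.2 ?_
          rintro y ⟨c, hc, hcr⟩ hyT
          refine hn ⟨some c, ⟨c, hc, rfl⟩, (rch_upE (hcr.mono hdn2)).tail ⟨upE_none.2 hyT, ?_⟩⟩
          intro h4
          have h5 : s(some y, none) = s(some z0, some z1) := h4
          rcases Sym2.eq_iff.1 h5 with ⟨_, h6⟩ | ⟨_, h6⟩
          · exact Option.some_ne_none _ h6.symm
          · exact Option.some_ne_none _ h6.symm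

theorem menger_first {O : Set (Sym2 W)} {D T : Set W} (h : (ClS O D ∩ T).Nonempty) :
    Two O D T ∨
    ∃ z z', s(z, z') ∈ O ∧ Two (del1 O s(z, z')) D {z} ∧ z' ∉ ClS (del1 O s(z, z')) D ∧
      Disjoint (ClS (del1 O s(z, z')) D) T := by
  rcases menger_cap h with ⟨a, ha, a', ha', t, ht, t', ht', _, hc⟩ | ⟨t, ht⟩ | h3
  · exact Or.inl ⟨a, ha, a', ha', t, ht, t', ht', hc⟩
  · have htm : t ∈ ClS O D ∩ T := by
      rw [ht]
      exact rfl
    rcases menger_core htm.1 with h2 | ⟨z, z', hzz, h2, hz', hn⟩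
    · left
      obtain ⟨a, ha, a', ha', r, hr, r', hr', hc⟩ := h2
      obtain rfl : r = t := hr
      obtain rfl : r' = r := hr'
      exact ⟨a, ha, a', ha', r', htm.2, r', htm.2, hc⟩
    · right
      refine ⟨z, z', hzz, h2, hz', Set.disjoint_left.2 (fun y hy hyT => ?_)⟩
      have hy2 : y ∈ ClS O D ∩ T := ⟨ClS_mono (del1_subset _ _) D hy, hyT⟩
      rw [ht] at hy2
      obtain rfl : y = t := hy2
      exact hn hy
  · exact Or.inr h3

end Pool.Agent.PB
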