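import Pool.Agent.PB.G.Base

/-!
# PB-G-SplitL: `exists_split` and `attach` with lengths (for 11.2, 11.3, 12.2, 12.6)

`exists_splitL`: a connection of length `≤ n` that does not avoid `K` splits at some `a ∈ K` into two
edge-disjoint connections of lengths `n1 + n2 ≤ n`.
`attachL`: edge-disjoint sets `S j ⊆ O` with `RchL (S j) (n j) (q j).1 (q j).2`, and `c` in the cluster (in `O`) of one of the starting
points: there are `j`, `z`, and edge-disjoint sets `P i ⊆ S i`, `Q ⊆ S j`, `R ⊆ O` with `P j : (q j).1 .. z` and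
`Q : z .. (q j).2` of lengths `n1 + n2 ≤ n j`, `P i` a connection of length `≤ n i` for `i ≠ j`, `R : z .. c`.

PLAN. Simple walks of Mathlib as in PB/G/Split.lean (landed; copy its private lemmas): (1) `RchL O n x y` gives a walk
`p : (SimpleGraph.fromEdgeSet O).Walk x y` with p.length ≤ n (induction on n; a step with s(z,z) (z = y) is no step: then use the shorter walk),
`p.bypass` is a path with `length_bypass_le`; (2) for every walk p: `RchL {e | e ∈ p.edges} p.length x y` (induction with RchL.trans or from the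
end: `RchL` extends at the end; use p.reverse / `SimpleGraph.Walk.concatRec`, or prove `RchL.head`-type lemma first: s(x,y) ∈ O → RchL O n y z → RchL O (n+1) x z);
(3) for a path p and a ∈ p.support: takeUntil/dropUntil: edge sets disjoint and contained in that of p, lengths add up (`take_spec`, length_append).
Then as in Split.lean: `rch_last_visit` for the union of the supports.
-/

set_option autoImplicit false

namespace Pool.Agent.PB

variable {W : Type*}

theorem RchL.head {O : Set (Sym2 W)} {n : ℕ} {x y z : W} (h : s(x, y) ∈ O) (h' : RchL O n y z) :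
    RchL O (n + 1) x z := by
  have h1 : RchL O 1 x y := Or.inr ⟨x, rfl, h⟩
  rw [Nat.add_comm]
  exact h1.trans h'

/-- a walk of length at most `n` -/
private theorem walk_of_rchL {O : Set (Sym2 W)} {n : ℕ} {x y : W} (h : RchL O n x y) :
    ∃ p : (SimpleGraph.fromEdgeSet O).Walk x y, p.length ≤ n := by
  induction n generalizing y with
  | zero =>
    obtain rfl : x = y := h
    exact ⟨SimpleGraph.Walk.nil, le_rfl⟩
  | succ n ih =>
    rcases h with h | ⟨z, h, hz⟩
    · obtain ⟨p, hp⟩ := ih h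
      exact ⟨p, by omega⟩
    · obtain ⟨p, hp⟩ := ih h
      by_cases hzy : z = y
      · subst hzy
        exact ⟨p, by omega⟩
      · refine ⟨p.concat ((SimpleGraph.fromEdgeSet_adj O).2 ⟨hz, hzy⟩), ?_⟩
        rw [SimpleGraph.Walk.length_concat]
        omega

/-- the edge set of a walk carries a connection of the same length -/
private theorem rchL_of_walk {O : Set (Sym2 W)} {x y : W}
    (p : (SimpleGraph.fromEdgeSet O).Walk x y) : RchL {e | e ∈ p.edges} p.length x y := by
  induction p with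
  | nil => exact RchL.refl _ _ _
  | cons h p ih =>
    rw [SimpleGraph.Walk.edges_cons, SimpleGraph.Walk.length_cons]
    exact RchL.head (List.mem_cons_self) (ih.mono fun e he => List.mem_cons_of_mem _ he)

/-- a simple path in `O`: its edge set `P` and its vertex set `U`, and how it splits -/
private theorem path_dataL {O : Set (Sym2 W)} {n : ℕ} {x y : W} (h : RchL O n x y) :
    ∃ (P : Set (Sym2 W)) (U : Set W), P ⊆ O ∧ x ∈ U ∧ (∀ e ∈ P, ∀ z ∈ e, z ∈ U) ∧
      ∀ a ∈ U, ∃ (P1 P2 : Set (Sym2 W)) (n1 n2 : ℕ), P1 ⊆ P ∧ P2 ⊆ P ∧ Disjoint P1 P2 ∧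
        n1 + n2 ≤ n ∧ RchL P1 n1 x a ∧ RchL P2 n2 a y := by
  classical
  obtain ⟨w, hw⟩ := walk_of_rchL h
  have hp : w.bypass.IsPath := w.bypass_isPath
  have hl : w.bypass.length ≤ n := (w.length_bypass_le_length).trans hw
  generalize w.bypass = p at hp hl
  refine ⟨{e | e ∈ p.edges}, {z | z ∈ p.support}, ?_, p.start_mem_support, ?_, ?_⟩
  · intro e he
    have h1 := p.edges_subset_edgeSet he
    rw [SimpleGraph.edgeSet_fromEdgeSet] at h1
    exact h1.1
  · intro e he z hz
    induction e using Sym2.ind with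
    | _ a b =>
      rcases Sym2.mem_iff.1 hz with rfl | rfl
      · exact p.fst_mem_support_of_mem_edges he
      · exact p.snd_mem_support_of_mem_edges he
  · intro a ha
    have hs : (p.takeUntil a ha).append (p.dropUntil a ha) = p := p.take_spec ha
    have he : p.edges = (p.takeUntil a ha).edges ++ (p.dropUntil a ha).edges := by
      rw [← SimpleGraph.Walk.edges_append, hs]
    have hlen : (p.takeUntil a ha).length + (p.dropUntil a ha).length ≤ n := by
      rw [← SimpleGraph.Walk.length_append, hs]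
      exact hl
    have hn : ((p.takeUntil a ha).edges ++ (p.dropUntil a ha).edges).Nodup := by
      rw [← he]; exact hp.isTrail.edges_nodup
    refine ⟨{e | e ∈ (p.takeUntil a ha).edges}, {e | e ∈ (p.dropUntil a ha).edges},
      _, _, ?_, ?_, ?_, hlen, rchL_of_walk _, rchL_of_walk _⟩
    · intro e h1
      change e ∈ p.edges
      rw [he]; exact List.mem_append_left _ h1
    · intro e h1
      change e ∈ p.edges
      rw [he]; exact List.mem_append_right _ h1
    · rw [Set.disjoint_left]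
      intro e h1 h2
      exact (List.disjoint_of_nodup_append hn) h1 h2

theorem exists_splitL {O : Set (Sym2 W)} {n : ℕ} {x y : W} (h : RchL O n x y) (K : Set W)
    (hK : x ∈ K ∨ ¬ RchL (off O K) n x y) : ∃ a ∈ K, ∃ (S1 S2 : Set (Sym2 W)) (n1 n2 : ℕ),
      S1 ⊆ O ∧ S2 ⊆ O ∧ Disjoint S1 S2 ∧ n1 + n2 ≤ n ∧ RchL S1 n1 x a ∧ RchL S2 n2 a y := by
  by_cases hx : x ∈ K
  · exact ⟨x, hx, ∅, O, 0, n, Set.empty_subset _, subset_rfl, Set.empty_disjoint _, by omega,
      RchL.refl _ _ _, h⟩
  · have hK' : ¬ RchL (off O K) n x y := hK.resolve_left hx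
    obtain ⟨P, U, hPO, hxU, hend, hsp⟩ := path_dataL h
    by_cases hU : ∃ a ∈ U, a ∈ K
    · obtain ⟨a, haU, haK⟩ := hU
      obtain ⟨P1, P2, n1, n2, h1, h2, h3, h6, h4, h5⟩ := hsp a haU
      exact ⟨a, haK, P1, P2, n1, n2, h1.trans hPO, h2.trans hPO, h3, h6, h4, h5⟩
    · push Not at hU
      obtain ⟨P1, P2, n1, n2, h1, h2, h3, h6, h4, h5⟩ := hsp x hxU
      exact absurd ((h5.mono fun e he =>
        mem_off.2 ⟨hPO (h2 he), fun z hz => hU z (hend e (h2 he) z hz)⟩).mono_len
          (by omega)) hK'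

theorem attachL {O : Set (Sym2 W)} {k : ℕ} {q : Fin k → W × W} {n : Fin k → ℕ}
    {S : Fin k → Set (Sym2 W)} (hS : ∀ j, S j ⊆ O)
    (hd : Pairwise (Function.onFun Disjoint S))
    (h : ∀ j, RchL (S j) (n j) (q j).1 (q j).2) (j0 : Fin k) {c : W} (hc : Rch O (q j0).1 c) :
    ∃ (j : Fin k) (z : W) (P : Fin k → Set (Sym2 W)) (Q R : Set (Sym2 W)) (n1 n2 : ℕ),
      (∀ i, P i ⊆ S i) ∧ Q ⊆ S j ∧ R ⊆ O ∧ Disjoint (P j) Q ∧ (∀ i, Disjoint R (P i)) ∧
      Disjoint R Q ∧ n1 + n2 ≤ n j ∧ RchL (P j) n1 (q j).1 z ∧ RchL Q n2 z (q j).2 ∧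
      (∀ i, i ≠ j → RchL (P i) (n i) (q i).1 (q i).2) ∧ Rch R z c := by
  choose P U hPS hxU hend hsp using fun j => path_dataL (h j)
  obtain ⟨r, hr, hrc⟩ := rch_last_visit (U := ⋃ j, U j) (Set.mem_iUnion.2 ⟨j0, hxU j0⟩) hc
  obtain ⟨j, hrj⟩ := Set.mem_iUnion.1 hr
  obtain ⟨P1, P2, n1, n2, h1, h2, h3, h6, h4, h5⟩ := hsp j r hrj
  have hoffP : ∀ i, Disjoint {f ∈ O | ¬ ∀ z ∈ f, z ∈ ⋃ j, U j} (P i) := by
    intro i
    rw [Set.disjoint_left]
    rintro f ⟨_, hf⟩ hfP
    exact hf fun z hz => Set.mem_iUnion.2 ⟨i, hend i f hfP z hz⟩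
  have hB : ∀ i, Function.update P j P1 i ⊆ P i := by
    intro i
    by_cases hij : i = j
    · subst hij
      rw [Function.update_self]; exact h1
    · rw [Function.update_of_ne hij]
  refine ⟨j, r, Function.update P j P1, P2, {f ∈ O | ¬ ∀ z ∈ f, z ∈ ⋃ j, U j}, n1, n2,
    fun i => (hB i).trans (hPS i), h2.trans (hPS j), fun f hf => hf.1, ?_, ?_, ?_, h6, ?_, h5,
    ?_, hrc⟩
  · rw [Function.update_self]
    exact h3
  · exact fun i => Set.disjoint_of_subset subset_rfl (hB i) (hoffP i)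
  · exact Set.disjoint_of_subset subset_rfl h2 (hoffP j)
  · rw [Function.update_self]
    exact h4
  · intro i hij
    rw [Function.update_of_ne hij]
    obtain ⟨Q1, Q2, m1, m2, g1, g2, g3, g6, g4, g5⟩ := hsp i (q i).1 (hxU i)
    exact (g5.mono g2).mono_len (by omega)

end Pool.Agent.PB
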