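import Pool.Agent.PB.G.MengerT
import Pool.Agent.PB.G.Order
import Pool.Agent.PB.G.Split

/-!
# PB-G-TB (section 2.7): the T-bound for `E'(O;y,u;A)`

PLAN. Case 1: no edge separates y from u in O. `menger_first` with D = {y}, T = {u} (third alternative excluded by `sep_iff`):
disjoint Q1, Q2 ⊆ O connecting y → u. Claim: y ∈ A.verts or ¬ Rch (off Q1 A.verts) y u: otherwise y ∉ A.S and
`off Q1 A.verts ⊆ A.rem O` (an edge with no end point in A.verts is not in A.F and has no end point in A.S), so u ∈ ClA A O y,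
excluded by EPrime. `exists_split` in Q1 with K = A.verts: a ∈ A.verts, disjoint S1, S2 ⊆ Q1. Take w = y and the edge sets
∅, S1, S2, Q2 for ![(y,y),(y,a),(a,u),(y,u)].
Case 2: some edge separates: `piv_of_sep` (D = {y}, T = {u}), `exists_max_piv`: the last pivotal pair (u1, v1), e = s(u1,v1),
K = ClS (del1 O e) {y}; w := v1. v1 → u in off O K. No edge f separates v1 from u in off O K: `Piv.sep_lift` + `piv_of_sep` + maximality
(v' ∈ K ⊆ Kf, v' ∉ Kf, or f = e) give a contradiction. `menger_first` in off O K, D = {v1}, T = {u}: disjoint Q1, Q2 ⊆ off O K.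
u1 ∈ ClA A O y by EPrime (e separates y from u with near end point u1). Claim: v1 ∈ A.verts or ¬ Rch (off Q1 A.verts) v1 u: otherwise
v1 ∉ A.S and e ∉ A.F (v1 ∉ A.verts), so v1 ∈ ClA A O y (`ClA_closed`) and then u ∈ ClA A O y, excluded. `exists_split` in Q1: a, S1,
S2. First connection y → v1: edge set S0 = {f ∈ del1 O e | ∀ z ∈ f, z ∈ K} ∪ {e} (`rch_cut`, tail), disjoint from off O K.
Lemma to state first: four sets S0, S1, S2, Q2 ⊆ O pairwise disjoint give `DisjConn O ![(y,w),(w,a),(a,u),(w,u)]` (as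
`disjConn_two` in Base.lean).
-/

set_option autoImplicit false

namespace Pool.Agent.PB

variable {W : Type*}

private theorem disjConn_four {O S0 S1 S2 S3 : Set (Sym2 W)} {a0 b0 a1 b1 a2 b2 a3 b3 : W}
    (h0 : S0 ⊆ O) (h1 : S1 ⊆ O) (h2 : S2 ⊆ O) (h3 : S3 ⊆ O)
    (d01 : Disjoint S0 S1) (d02 : Disjoint S0 S2) (d03 : Disjoint S0 S3)
    (d12 : Disjoint S1 S2) (d13 : Disjoint S1 S3) (d23 : Disjoint S2 S3)
    (r0 : Rch S0 a0 b0) (r1 : Rch S1 a1 b1) (r2 : Rch S2 a2 b2) (r3 : Rch S3 a3 b3) :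
    DisjConn O ![(a0, b0), (a1, b1), (a2, b2), (a3, b3)] := by
  refine ⟨![S0, S1, S2, S3], ?_, ?_, ?_⟩
  · intro j
    fin_cases j
    exacts [h0, h1, h2, h3]
  · intro i j hij
    fin_cases i <;> fin_cases j
    exacts [absurd rfl hij, d01, d02, d03, d01.symm, absurd rfl hij, d12, d13, d02.symm, d12.symm,
      absurd rfl hij, d23, d03.symm, d13.symm, d23.symm, absurd rfl hij]
  · intro j
    fin_cases j
    exacts [r0, r1, r2, r3]

private theorem off_verts_sub {O Q : Set (Sym2 W)} {A : Del W} (hQ : Q ⊆ O) :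
    off Q A.verts ⊆ A.rem O := by
  intro f hf
  obtain ⟨h1, h2⟩ := mem_off.1 hf
  refine ⟨hQ h1, ?_, fun z hz hS => h2 z hz (Or.inl hS)⟩
  intro hF
  induction f using Sym2.ind with
  | _ a b => exact h2 a (Sym2.mem_mk_left a b) (Or.inr ⟨_, hF, Sym2.mem_mk_left a b⟩)

private theorem two_sets {O : Set (Sym2 W)} {y u : W} (h : Two O {y} {u}) :
    ∃ S1 S2 : Set (Sym2 W), S1 ⊆ O ∧ S2 ⊆ O ∧ Disjoint S1 S2 ∧ Rch S1 y u ∧ Rch S2 y u := by
  obtain ⟨S1, S2, h1, h2, h3, ⟨t, ht, htT⟩, ⟨t', ht', ht'T⟩⟩ := two_iff.1 h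
  rw [ClS_singleton] at ht ht'
  rw [Set.mem_singleton_iff] at htT ht'T
  subst htT
  subst ht'T
  exact ⟨S1, S2, h1, h2, h3, ht, ht'⟩

theorem EPrime.tbound {O : Set (Sym2 W)} {y u : W} {A : Del W} (h : EPrime O y u A) :
    ∃ a ∈ A.verts, ∃ w, DisjConn O ![(y, w), (w, a), (a, u), (w, u)] := by
  have hne : (ClS O {y} ∩ {u}).Nonempty :=
    ⟨u, ⟨y, Set.mem_singleton y, h.1⟩, Set.mem_singleton u⟩
  by_cases hs : ∀ e, ¬ Sep O e y {u}
  · -- no separating edge
    rcases menger_first hne with h1 | ⟨z, z', hz, -, -, hd⟩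
    · obtain ⟨Q1, Q2, hQ1, hQ2, hd, hr1, hr2⟩ := two_sets h1
      have hcl : y ∈ A.verts ∨ ¬ Rch (off Q1 A.verts) y u := by
        by_contra hn
        rw [not_or, not_not] at hn
        exact h.2.1 ⟨fun hS => hn.1 (Or.inl hS), hn.2.mono (off_verts_sub hQ1)⟩
      obtain ⟨a, ha, hc⟩ := exists_split hr1 A.verts hcl
      obtain ⟨S1, S2, hS1, hS2, hS12, hy1, hy2⟩ := disjConn_two.1 hc
      refine ⟨a, ha, y, disjConn_four (S0 := ∅) (S1 := S1) (S2 := S2) (S3 := Q2)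
        (Set.empty_subset _) (hS1.trans hQ1) (hS2.trans hQ1) hQ2 (Set.empty_disjoint _)
        (Set.empty_disjoint _) (Set.empty_disjoint _) hS12 (hd.mono_left hS1) (hd.mono_left hS2)
        (Rch.refl _ _) hy1 hy2 hr2⟩
    · exact absurd (sep_iff.2 ⟨hz, hd⟩) (hs s(z, z'))
  · push Not at hs
    obtain ⟨e0, he0⟩ := hs
    obtain ⟨he0O, he0d⟩ := sep_iff.1 he0
    obtain ⟨u0, v0, -, hp0⟩ := piv_of_sep hne he0O he0d
    obtain ⟨u1, v1, hp, hmax⟩ := exists_max_piv hp0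
    have hp' := hp
    obtain ⟨he, hu, hv, hdis, t0, ht0, hvt⟩ := hp
    rw [Set.mem_singleton_iff] at ht0
    subst ht0
    have hsep1 : Sep O s(u1, v1) y {t0} := sep_iff.2 ⟨he, hdis⟩
    set K := ClS (del1 O s(u1, v1)) {y} with hK
    have hne2 : (ClS (off O K) {v1} ∩ {t0}).Nonempty :=
      ⟨t0, ⟨v1, Set.mem_singleton v1, hvt⟩, Set.mem_singleton t0⟩
    rcases menger_first hne2 with h1 | ⟨w, w', hw, -, -, hd2⟩
    · obtain ⟨Q1, Q2, hQ1, hQ2, hd, hr1, hr2⟩ := two_sets h1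
      have hQ1O : Q1 ⊆ O := hQ1.trans (off_subset _ _)
      have hQ2O : Q2 ⊆ O := hQ2.trans (off_subset _ _)
      have hyu : Rch (del1 O s(u1, v1)) y u1 := by
        have h2 := hu
        rw [hK, ClS_singleton] at h2
        exact h2
      have hu1 : u1 ∈ ClA A O y := h.2.2 _ hsep1 u1 (Sym2.mem_mk_left u1 v1) hyu
      have hcl : v1 ∈ A.verts ∨ ¬ Rch (off Q1 A.verts) v1 t0 := by
        by_contra hn
        rw [not_or, not_not] at hn
        have hv1 : v1 ∈ ClA A O y := ClA_closed hu1 he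
          (fun hF => hn.1 (Or.inr ⟨_, hF, Sym2.mem_mk_right u1 v1⟩)) (fun hS => hn.1 (Or.inl hS))
        exact h.2.1 ⟨hv1.1, hv1.2.trans (hn.2.mono (off_verts_sub hQ1O))⟩
      obtain ⟨a, ha, hc⟩ := exists_split hr1 A.verts hcl
      obtain ⟨S1, S2, hS1, hS2, hS12, hy1, hy2⟩ := disjConn_two.1 hc
      have hdO : Disjoint ({f ∈ del1 O s(u1, v1) | ∀ z ∈ f, z ∈ K} ∪ {s(u1, v1)}) (off O K) := by
        rw [Set.disjoint_left]
        rintro f (⟨-, hf⟩ | hf) hoff
        · induction f using Sym2.ind with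
          | _ a b =>
            exact (mem_off.1 hoff).2 a (Sym2.mem_mk_left a b) (hf a (Sym2.mem_mk_left a b))
        · rw [Set.mem_singleton_iff] at hf
          subst hf
          exact (mem_off.1 hoff).2 u1 (Sym2.mem_mk_left u1 v1) hu
      refine ⟨a, ha, v1, disjConn_four
        (S0 := {f ∈ del1 O s(u1, v1) | ∀ z ∈ f, z ∈ K} ∪ {s(u1, v1)}) (S1 := S1) (S2 := S2)
        (S3 := Q2) ?_ (hS1.trans hQ1O) (hS2.trans hQ1O) hQ2O (hdO.mono_right (hS1.trans hQ1))
        (hdO.mono_right (hS2.trans hQ1)) (hdO.mono_right hQ2) hS12 (hd.mono_left hS1)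
        (hd.mono_left hS2) ?_ hy1 hy2 hr2⟩
      · rintro f (hf | hf)
        · exact hf.1.1
        · rw [Set.mem_singleton_iff] at hf
          subst hf
          exact he
      · have h3 := rch_cut (Set.mem_singleton y) hyu
        exact (h3.mono Set.subset_union_left).tail (Or.inr rfl)
    · exfalso
      obtain ⟨hfO, hfe, hfd, hKf, hvf⟩ := hp'.sep_lift (sep_iff.2 ⟨hw, hd2⟩)
      obtain ⟨u', v', hf, hp2⟩ := piv_of_sep hne hfO hfd
      rcases hmax u' v' hp2 with ⟨rfl, rfl⟩ | ⟨hle, hv'⟩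
      · exact hfe hf
      · have h3 := hp2.2.2.1
        rw [← hf] at h3
        exact h3 (hKf hv')

end Pool.Agent.PB
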